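import Pool.Agent.W896.HB.Word

/-!
# Closed braids as graphs
-/

set_option autoImplicit false

namespace Pool.Agent.W896.HB

open Equiv

/-- The vertices of a closed braid with `L` crossings and five strands. -/
abbrev BV (L : ℕ) : Type := Fin L × Bool × Fin 5

/-- `t'` comes after `t` (cyclically). -/
def Nxt {L : ℕ} (t t' : Fin L) : Prop := t'.val = t.val + 1 ∨ (t.val + 1 = L ∧ t'.val = 0)

/-- The edges of a closed braid, in one direction. -/
def EB {L : ℕ} (g : Fin L → Perm (Fin 5)) (u v : BV L) : Prop :=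
  u.2.1 = false ∧ v.2.1 = true ∧
    ((u.1 = v.1 ∧ u.2.2 = g u.1 v.2.2) ∨ (Nxt v.1 u.1 ∧ u.2.2 = v.2.2))

/-- The closed braid. -/
def braid {L : ℕ} (g : Fin L → Perm (Fin 5)) : SimpleGraph (BV L) where
  Adj u v := EB g u v ∨ EB g v u
  symm := ⟨fun _ _ h => h.symm⟩
  loopless := ⟨fun u h => by
    rcases h with h | h <;> exact absurd (h.1.symm.trans h.2.1) (by decide)⟩

/-- The product of the first `t` crossings. -/
def pre {L : ℕ} (g : Fin L → Perm (Fin 5)) (t : ℕ) : Perm (Fin 5) :=
  ((List.ofFn g).take t).prod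

theorem pre_zero {L : ℕ} (g : Fin L → Perm (Fin 5)) : pre g 0 = 1 := by
  unfold pre; simp

theorem pre_succ {L : ℕ} (g : Fin L → Perm (Fin 5)) (t : Fin L) :
    pre g (t.val + 1) = pre g t.val * g t := by
  unfold pre
  rw [List.prod_take_succ _ _ (by simp)]
  simp

theorem pre_last {L : ℕ} (g : Fin L → Perm (Fin 5)) : pre g L = (List.ofFn g).prod := by
  unfold pre
  rw [List.take_of_length_le (by simp)]

/-- The strand of a vertex. -/
def lev {L : ℕ} (g : Fin L → Perm (Fin 5)) (u : BV L) : Perm (Fin 5) :=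
  pre g (u.1.val + if u.2.1 = true then 1 else 0)

/-- Straightening. -/
def str {L : ℕ} (g : Fin L → Perm (Fin 5)) : Perm (BV L) where
  toFun u := (u.1, u.2.1, lev g u u.2.2)
  invFun u := (u.1, u.2.1, (lev g u)⁻¹ u.2.2)
  left_inv := by
    rintro ⟨t, s, a⟩
    unfold lev
    simp
  right_inv := by
    rintro ⟨t, s, a⟩
    unfold lev
    simp

theorem lev_one {L : ℕ} (u : BV L) : lev (fun _ => 1) u = 1 := by
  unfold lev pre
  apply List.prod_eq_one
  intro p hp
  have := List.mem_of_mem_take hp
  rw [List.mem_ofFn] at this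
  obtain ⟨_, rfl⟩ := this
  rfl

theorem EB_str {L : ℕ} {g : Fin L → Perm (Fin 5)} (h : (List.ofFn g).prod = 1) (u v : BV L) :
    EB (fun _ => 1) (str g u) (str g v) ↔ EB g u v := by
  obtain ⟨t, s, a⟩ := u
  obtain ⟨t', s', a'⟩ := v
  unfold EB str
  simp only [Equiv.coe_fn_mk]
  apply and_congr_right
  rintro rfl
  apply and_congr_right
  rintro rfl
  apply or_congr
  · apply and_congr_right
    rintro rfl
    unfold lev
    simp only [Bool.false_eq_true, if_false, if_true, add_zero]
    rw [pre_succ, Perm.mul_apply, Perm.one_apply]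
    exact (pre g t.val).injective.eq_iff
  · apply and_congr_right
    intro hn
    unfold lev
    simp only [Bool.false_eq_true, if_false, if_true, add_zero]
    have h1 : pre g t.val = pre g (t'.val + 1) := by
      rcases hn with h2 | ⟨h2, h3⟩
      · rw [h2]
      · rw [h2, h3, pre_zero, pre_last, h]
    rw [h1]
    exact (pre g (t'.val + 1)).injective.eq_iff

theorem braid_str {L : ℕ} {g : Fin L → Perm (Fin 5)} (h : (List.ofFn g).prod = 1) (u v : BV L) :
    (braid (fun _ => 1)).Adj (str g u) (str g v) ↔ (braid g).Adj u v :=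
  or_congr (EB_str h u v) (EB_str h v u)

/-- The strand through the vertex `0` at the beginning. -/
theorem reach_strand {L : ℕ} (g : Fin L → Perm (Fin 5)) (t₀ : Fin L) (h0 : t₀.val = 0) (c : Fin 5) :
    ∀ t : Fin L, ∀ s : Bool, (braid g).Reachable (t₀, false, c) (t, s, (lev g (t, s, c))⁻¹ c) := by
  have key : ∀ t : Fin L, (braid g).Reachable (t₀, false, c) (t, false, (pre g t.val)⁻¹ c) →
      (braid g).Reachable (t₀, false, c) (t, true, (pre g (t.val + 1))⁻¹ c) := by
    intro t ht
    refine ht.trans (SimpleGraph.Adj.reachable (Or.inl ⟨rfl, rfl, Or.inl ⟨rfl, ?_⟩⟩))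
    simp only
    rw [pre_succ, mul_inv_rev, Perm.mul_apply]
    simp
  have main : ∀ m : ℕ, ∀ t : Fin L, t.val = m →
      (braid g).Reachable (t₀, false, c) (t, false, (pre g t.val)⁻¹ c) := by
    intro m
    induction m with
    | zero =>
      intro t ht
      have : t = t₀ := Fin.ext (ht.trans h0.symm)
      rw [this, h0, pre_zero]
      simp
    | succ m ih =>
      intro t ht
      have hm : m < L := by have := t.isLt; omega
      have h1 := key ⟨m, hm⟩ (ih ⟨m, hm⟩ rfl)
      refine h1.trans (SimpleGraph.Adj.reachable (Or.inr ⟨rfl, rfl, Or.inr ⟨Or.inl ht, ?_⟩⟩))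
      simp only
      rw [ht]
  intro t s
  cases s with
  | false => exact main t.val t rfl
  | true => exact key t (main t.val t rfl)

theorem reach_wrap {L : ℕ} (g : Fin L → Perm (Fin 5)) (t₀ : Fin L) (h0 : t₀.val = 0) (c : Fin 5) :
    (braid g).Reachable (t₀, false, c) (t₀, false, ((List.ofFn g).prod)⁻¹ c) := by
  have hL : L - 1 < L := by have := t₀.isLt; omega
  have h1 := reach_strand g t₀ h0 c ⟨L - 1, hL⟩ true
  refine h1.trans (SimpleGraph.Adj.reachable (Or.inr ⟨rfl, rfl, Or.inr ⟨Or.inr ⟨?_, h0⟩, ?_⟩⟩))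
  · simp only; omega
  · unfold lev
    simp only [if_true]
    have : L - 1 + 1 = L := by omega
    rw [this, pre_last]

variable {n : ℕ}

/-- Some vertex has more than `m` vertices in its component. -/
def Big {X : Type} (m : ℕ) (G : SimpleGraph X) : Prop :=
  ∃ v, m < Nat.card {w // G.Reachable v w}

theorem Big.iso {X Y : Type} {m : ℕ} {G : SimpleGraph X} {H : SimpleGraph Y} (f : G ≃g H)
    (h : Big m G) : Big m H := by
  obtain ⟨v, hv⟩ := h
  refine ⟨f v, hv.trans_le (le_of_eq ?_)⟩
  refine Nat.card_congr (f.toEquiv.subtypeEquiv ?_)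
  intro w
  exact f.reachable_iff.symm

theorem big_tau {L : ℕ} (e : BV L ↪ Fin n) (g : Fin L → Perm (Fin 5)) (hL : 0 < L)
    (h : (List.ofFn g).prod = tau) : Big (2 * L) ((braid g).map e) := by
  refine ⟨e (⟨0, hL⟩, false, 0), ?_⟩
  have hmap : ∀ u v, (braid g).Reachable u v → ((braid g).map e).Reachable (e u) (e v) := by
    intro u v huv
    exact huv.map (SimpleGraph.Embedding.map e (braid g)).toHom
  have h1 : Nat.card (Option (Fin L × Bool)) = 2 * L + 1 := by
    rw [Nat.card_eq_fintype_card, Fintype.card_option, Fintype.card_prod, Fintype.card_fin,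
      Fintype.card_bool, mul_comm]
  have h2 : Nat.card (Option (Fin L × Bool)) ≤
      Nat.card {w // ((braid g).map e).Reachable (e (⟨0, hL⟩, false, 0)) w} := by
    refine Nat.card_le_card_of_injective (fun o => match o with
      | none => ⟨e (⟨0, hL⟩, false, (tau⁻¹ : Perm (Fin 5)) 0), ?_⟩
      | some p => ⟨e (p.1, p.2, (lev g (p.1, p.2, 0))⁻¹ 0), ?_⟩) ?_
    · have := reach_wrap g ⟨0, hL⟩ rfl 0
      rw [h] at this
      exact hmap _ _ this
    · exact hmap _ _ (reach_strand g ⟨0, hL⟩ rfl 0 p.1 p.2)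
    · have hne : ∀ p : Fin L × Bool, (⟨0, hL⟩, false, (tau⁻¹ : Perm (Fin 5)) 0) ≠
          ((p.1, p.2, (lev g (p.1, p.2, 0))⁻¹ 0) : BV L) := by
        intro p hp
        rw [Prod.mk.injEq, Prod.mk.injEq] at hp
        obtain ⟨h3, h4, h5⟩ := hp
        rw [← h3, ← h4] at h5
        unfold lev at h5
        simp only [Bool.false_eq_true, if_false, add_zero] at h5
        rw [pre_zero] at h5
        revert h5
        decide
      intro o o' ho
      cases o with
      | none =>
        cases o' with
        | none => rfl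
        | some p => exact absurd (e.injective (congrArg Subtype.val ho)) (hne p)
      | some p =>
        cases o' with
        | none => exact absurd (e.injective (congrArg Subtype.val ho)).symm (hne p)
        | some p' =>
          have := e.injective (congrArg Subtype.val ho)
          rw [Prod.mk.injEq, Prod.mk.injEq] at this
          exact congrArg some (Prod.ext this.1 this.2.1)
  omega

theorem not_big_one {L : ℕ} (e : BV L ↪ Fin n) (hL : 0 < L) :
    ¬ Big (2 * L) ((braid (fun _ : Fin L => (1 : Perm (Fin 5)))).map e) := by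
  classical
  rintro ⟨v, hv⟩
  obtain ⟨lab, hlab⟩ : ∃ lab : Fin n → Option (Fin 5), ∀ u : BV L, lab (e u) = some u.2.2 := by
    refine ⟨fun w => if h : ∃ u, e u = w then some (h.choose).2.2 else none, fun u => ?_⟩
    have h : ∃ u', e u' = e u := ⟨u, rfl⟩
    simp only [h, dif_pos]
    rw [e.injective h.choose_spec]
  have hinv : ∀ w, ((braid (fun _ : Fin L => (1 : Perm (Fin 5)))).map e).Reachable v w →
      w = v ∨ ∃ u u' : BV L, e u = v ∧ e u' = w ∧ u'.2.2 = u.2.2 := by
    intro w hw
    obtain ⟨p⟩ := hw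
    induction p with
    | nil => exact Or.inl rfl
    | @cons x y z hxy p ih =>
      rw [SimpleGraph.map_adj] at hxy
      obtain ⟨u, u', hu, rfl, rfl⟩ := hxy
      have h1 : u'.2.2 = u.2.2 := by
        rcases hu with h | h <;> rcases h.2.2 with h3 | h3
        · exact h3.2.symm
        · exact h3.2.symm
        · exact h3.2
        · exact h3.2
      have ih' : z = e u' ∨ ∃ a a' : BV L, e a = e u' ∧ e a' = z ∧ a'.2.2 = a.2.2 := by
        by_contra hcon
        refine hcon (ih ?_)
        refine lt_of_lt_of_le hv (le_of_eq ?_)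
        refine Nat.card_congr (Equiv.subtypeEquivRight (fun w => ?_))
        have hadj : ((braid (fun _ : Fin L => (1 : Perm (Fin 5)))).map e).Reachable (e u) (e u') :=
          SimpleGraph.Adj.reachable ((SimpleGraph.map_adj _ _ _ _).2 ⟨u, u', hu, rfl, rfl⟩)
        exact ⟨fun h => hadj.symm.trans h, fun h => hadj.trans h⟩
      rcases ih' with rfl | ⟨a, a', ha, rfl, haa⟩
      · exact Or.inr ⟨u, u', rfl, rfl, h1⟩
      · rw [e.injective ha] at haa
        exact Or.inr ⟨u, a', rfl, rfl, haa.trans h1⟩
  have hbound : Nat.card {w // ((braid (fun _ : Fin L => (1 : Perm (Fin 5)))).map e).Reachable v w}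
      ≤ 2 * L := by
    by_cases hve : ∃ u, e u = v
    · obtain ⟨u, rfl⟩ := hve
      have h3 : ∀ w : {w // ((braid (fun _ : Fin L => (1 : Perm (Fin 5)))).map e).Reachable (e u) w},
          ∃ p : Fin L × Bool, e (p.1, p.2, u.2.2) = w.1 := by
        rintro ⟨w, hw⟩
        rcases hinv w hw with rfl | ⟨a, a', ha, rfl, haa⟩
        · exact ⟨(u.1, u.2.1), rfl⟩
        · rw [e.injective ha] at haa
          refine ⟨(a'.1, a'.2.1), ?_⟩
          simp only
          rw [← haa]
      choose F hF using h3
      have h4 : Function.Injective F := by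
        intro w w' hww
        apply Subtype.ext
        rw [← hF w, ← hF w', hww]
      have := Nat.card_le_card_of_injective F h4
      rwa [Nat.card_eq_fintype_card (α := Fin L × Bool), Fintype.card_prod, Fintype.card_fin,
        Fintype.card_bool, mul_comm] at this
    · have h3 : ∀ w : {w // ((braid (fun _ : Fin L => (1 : Perm (Fin 5)))).map e).Reachable v w},
          w.1 = v := by
        rintro ⟨w, hw⟩
        rcases hinv w hw with h | ⟨u, u', hu, -, -⟩
        · exact h
        · exact absurd ⟨u, hu⟩ hve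
      have h4 : Subsingleton {w // ((braid (fun _ : Fin L => (1 : Perm (Fin 5)))).map e).Reachable
          v w} := ⟨fun a b => Subtype.ext ((h3 a).trans (h3 b).symm)⟩
      have h5 := Finite.card_le_one_iff_subsingleton.2 h4
      omega
  omega

/-- The isomorphism of the embedded graphs. -/
theorem iso_one {L : ℕ} (e : BV L ↪ Fin n) (g : Fin L → Perm (Fin 5))
    (h : (List.ofFn g).prod = 1) :
    Nonempty ((braid g).map e ≃g (braid (fun _ : Fin L => (1 : Perm (Fin 5)))).map e) := by
  classical
  have hF : ∀ u, (str g).viaFintypeEmbedding e (e u) = e (str g u) := fun u =>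
    Perm.viaFintypeEmbedding_apply_image _ _ _
  refine ⟨⟨(str g).viaFintypeEmbedding e, ?_⟩⟩
  intro x y
  rw [SimpleGraph.map_adj, SimpleGraph.map_adj]
  constructor
  · rintro ⟨u, v, huv, hu, hv⟩
    obtain ⟨u', rfl⟩ := (str g).surjective u
    obtain ⟨v', rfl⟩ := (str g).surjective v
    rw [← hF] at hu hv
    exact ⟨u', v', (braid_str h u' v').1 huv, (Equiv.injective _ hu), (Equiv.injective _ hv)⟩
  · rintro ⟨u, v, huv, rfl, rfl⟩
    exact ⟨str g u, str g v, (braid_str h u v).2 huv, (hF u).symm, (hF v).symm⟩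

end Pool.Agent.W896.HB
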