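import Pool.Agent.W896.HP.Cyl

/-!
# Few phases and few nodes: inputs which are made from the files of a generalised inner product
-/

set_option autoImplicit false

namespace Pool.Agent.W896.HB

open Finset Pool.Agent.H541R2 Pool.Agent.W896.HP

variable {κ ι : Type}

theorem valid_cyl {k N L : ℕ} (P : Prog κ ι) (χ : ι → Fin (2 * k + 1))
    (X : (Fin (2 * k + 1) → Fin N → Bool) → ι → Bool)
    (hX : ∀ b b' i, b (χ i) = b' (χ i) → X b i = X b' i)
    (θ : Fin L → Option (Fact (Fin (2 * k + 1)) P.State)) (hθ : Valid k P θ) :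
    IsCyl {b : Fin (2 * k + 1) → Fin N → Bool | ∀ f ∈ lst θ, f.True P χ (X b)} := by
  classical
  have hpl : ∀ f ∈ lst θ, ∃ i, i ∉ f.files := by
    intro f hf
    by_contra hcon
    push Not at hcon
    have h1 : f.files = univ := by ext i; simp [hcon i]
    have h2 : f.files.card ≤ 2 * k := by
      have h3 := hθ.1 f hf
      cases f with
      | mono A q p =>
        have := h3.1 A q p rfl
        change A.card ≤ 2 * k
        omega
      | ctx A B q' p' q p =>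
        have := h3.2 A B q' p' q p rfl
        have h4 := card_union_le A B
        change (A ∪ B).card ≤ 2 * k
        omega
    rw [h1, card_univ, Fintype.card_fin] at h2
    omega
  have hpl' : ∀ f, ∃ i, f ∈ lst θ → i ∉ f.files := by
    intro f
    by_cases hf : f ∈ lst θ
    · obtain ⟨i, hi⟩ := hpl f hf
      exact ⟨i, fun _ => hi⟩
    · exact ⟨0, fun h => absurd h hf⟩
  choose pl hpl2 using hpl'
  refine ⟨fun i => {b | ∀ f ∈ lst θ, pl f = i → f.True P χ (X b)}, ?_, ?_⟩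
  · intro i b b' hb hD f hf hfi
    refine Fact.dep (hD f hf hfi) ?_
    intro j hj
    have h1 := hpl2 f hf
    rw [hfi] at h1
    exact hX b b' j (hb (χ j) (fun h => h1 (h ▸ hj)))
  · intro b
    constructor
    · intro h i f hf _
      exact h f hf
    · intro h f hf
      exact h (pl f) f hf rfl

open Classical in
/-- The number of inputs which are accepted in few phases. -/
theorem accPh_card {k N m : ℕ} (P : Prog κ ι) (χ : ι → Fin (2 * k + 1))
    (X : (Fin (2 * k + 1) → Fin N → Bool) → ι → Bool)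
    (hX : ∀ b b' i, b (χ i) = b' (χ i) → X b i = X b' i) (σ : ℝ) (hσ : |σ| = 1)
    (hP : ∀ b : Fin (2 * k + 1) → Fin N → Bool, (∃ l, P.Acc (X b) l) → gsign univ b = σ) :
    ((univ.filter (fun b : Fin (2 * k + 1) → Fin N → Bool =>
      AccPh k m P χ (X b))).card : ℝ) ≤
    ((Fintype.card (Fact (Fin (2 * k + 1)) P.State) + 1 : ℕ) : ℝ) ^ (3 * m + 1) *
      ((2 ^ N : ℝ) ^ (2 * k + 1) * (mu (2 * k)) ^ N) := by
  obtain ⟨S, hS⟩ : ∃ S : (Fin (3 * m + 1) → Option (Fact (Fin (2 * k + 1)) P.State)) →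
      Set (Fin (2 * k + 1) → Fin N → Bool),
      ∀ θ, S θ = {b | ∀ f ∈ lst θ, f.True P χ (X b)} := ⟨_, fun _ => rfl⟩
  have hcyl : ∀ θ, Valid k P θ → IsCyl (S θ) := fun θ hθ => by
    rw [hS]; exact valid_cyl P χ X hX θ hθ
  have hmem : ∀ θ b, b ∈ S θ ↔ ∀ f ∈ lst θ, f.True P χ (X b) := fun θ b => by
    rw [hS]; exact Iff.rfl
  clear hS
  obtain ⟨G, hG⟩ : ∃ G : (Fin (3 * m + 1) → Option (Fact (Fin (2 * k + 1)) P.State)) →
      Finset (Fin (2 * k + 1) → Fin N → Bool),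
      ∀ θ, G θ = if Valid k P θ then univ.filter (fun b => b ∈ S θ) else ∅ :=
    ⟨_, fun _ => rfl⟩
  have hsub : univ.filter (fun b : Fin (2 * k + 1) → Fin N → Bool =>
      AccPh k m P χ (X b)) ⊆ univ.biUnion G := by
    intro b hb
    rw [mem_filter] at hb
    obtain ⟨θ, h1, h2⟩ := hb.2.valid
    rw [mem_biUnion]
    refine ⟨θ, mem_univ _, ?_⟩
    rw [hG, if_pos h1, mem_filter, hmem]
    exact ⟨mem_univ _, h2⟩
  have h1 := (card_le_card hsub).trans card_biUnion_le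
  have h2 : ∀ θ, ((G θ).card : ℝ) ≤ (2 ^ N : ℝ) ^ (2 * k + 1) * (mu (2 * k)) ^ N := by
    intro θ
    rw [hG]
    by_cases hθ : Valid k P θ
    · rw [if_pos hθ]
      refine cyl_card (g := 2 * k) (hcyl θ hθ) σ hσ ?_
      intro b hb
      obtain ⟨p, h3, h4⟩ := hθ.2
      obtain ⟨l, hl⟩ := h4.toRet ((hmem θ b).1 hb)
      exact hP b ⟨l, acc_iff.2 ⟨p, hl, h3⟩⟩
    · rw [if_neg hθ]
      have := mu_nonneg (2 * k)
      simp only [card_empty, Nat.cast_zero]
      positivity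
  calc ((univ.filter (fun b : Fin (2 * k + 1) → Fin N → Bool =>
      AccPh k m P χ (X b))).card : ℝ) ≤ ∑ θ, ((G θ).card : ℝ) := by
        exact_mod_cast h1
    _ ≤ ∑ θ : Fin (3 * m + 1) → Option (Fact (Fin (2 * k + 1)) P.State),
        (2 ^ N : ℝ) ^ (2 * k + 1) * (mu (2 * k)) ^ N := Finset.sum_le_sum (fun θ _ => h2 θ)
    _ = _ := by
        rw [Finset.sum_const, card_univ, nsmul_eq_mul, Fintype.card_fun, Fintype.card_option,
          Fintype.card_fin]
        push_cast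
        ring

open Classical in
/-- **The lower bound for the generalised inner product.** -/
theorem gip_lower (k : ℕ) : ∃ a : ℕ, 1 ≤ a ∧ ∀ (ι : Type) (N m q : ℕ)
    (P : Prog κ ι) (χ : ι → Fin (2 * k + 1))
    (X : (Fin (2 * k + 1) → Fin N → Bool) → ι → Bool)
    (_ : ∀ b b' i, b (χ i) = b' (χ i) → X b i = X b' i)
    (σ : ℝ), (σ = 1 ∨ σ = -1) → a ≤ N →
    (∀ b : Fin (2 * k + 1) → Fin N → Bool, (∃ l, P.Acc (X b) l) → gsign univ b = σ) →
    (univ.filter (fun b : Fin (2 * k + 1) → Fin N → Bool => gsign univ b = σ)).card ≤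
      2 ^ q * (univ.filter (fun b : Fin (2 * k + 1) → Fin N → Bool =>
        AccPh k m P χ (X b))).card →
    N / a ≤ q + 2 + (3 * m + 1) * (4 * k + 8 + 4 * Nat.log 2 (Fintype.card P.State)) := by
  obtain ⟨a, ha, hmu⟩ := exists_half (2 * k)
  refine ⟨a, ha, ?_⟩
  intro ι N m q P χ X hX σ hσ haN hP hq
  have hμ0 := mu_nonneg (2 * k)
  have hμ1 := (mu_lt_one (2 * k)).le
  have h1 := sign_card (2 * k) N σ hσ
  have h2 := accPh_card (m := m) P χ X hX σ (by rcases hσ with h | h <;> rw [h] <;> norm_num) hP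
  have hmuN : (mu (2 * k)) ^ N ≤ (1 / 2) ^ (N / a) := by
    calc (mu (2 * k)) ^ N ≤ (mu (2 * k)) ^ (a * (N / a)) :=
          pow_le_pow_of_le_one hμ0 hμ1 (Nat.mul_div_le N a)
      _ = ((mu (2 * k)) ^ a) ^ (N / a) := by rw [pow_mul]
      _ ≤ (1 / 2) ^ (N / a) := pow_le_pow_left₀ (pow_nonneg hμ0 _) hmu _
  have hNa : 1 ≤ N / a := (Nat.one_le_div_iff (by omega)).2 haN
  have hhalf : (mu (2 * k)) ^ N ≤ 1 / 2 := by
    calc (mu (2 * k)) ^ N ≤ (1 / 2) ^ (N / a) := hmuN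
      _ ≤ (1 / 2) ^ 1 := pow_le_pow_of_le_one (by norm_num) (by norm_num) hNa
      _ = 1 / 2 := by norm_num
  set B : ℝ := (2 ^ N : ℝ) ^ (2 * k + 1) with hB
  have hBpos : 0 < B := by positivity
  set E : ℕ := 4 * k + 8 + 4 * Nat.log 2 (Fintype.card P.State) with hE
  have hF : Fintype.card (Fact (Fin (2 * k + 1)) P.State) + 1 ≤ 2 ^ E := by
    have h3 := fact_card (C := Fin (2 * k + 1)) (S := P.State)
    rw [Fintype.card_fin] at h3
    exact (Nat.add_le_add_right h3 1).trans fact_bound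
  have h3 : B / 4 ≤ 2 ^ q * ((2 : ℝ) ^ (E * (3 * m + 1)) * (B * (1 / 2) ^ (N / a))) := by
    calc B / 4 ≤ B * (1 - (mu (2 * k)) ^ N) / 2 := by nlinarith
      _ ≤ _ := h1
      _ ≤ ((2 ^ q * (univ.filter (fun b : Fin (2 * k + 1) → Fin N → Bool =>
        AccPh k m P χ (X b))).card : ℕ) : ℝ) := by exact_mod_cast hq
      _ = 2 ^ q * ((univ.filter (fun b : Fin (2 * k + 1) → Fin N → Bool =>
        AccPh k m P χ (X b))).card : ℝ) := by push_cast; ring
      _ ≤ 2 ^ q * (((Fintype.card (Fact (Fin (2 * k + 1)) P.State) + 1 : ℕ) : ℝ) ^ (3 * m + 1) *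
          (B * (mu (2 * k)) ^ N)) := by gcongr
      _ ≤ 2 ^ q * (((2 ^ E : ℕ) : ℝ) ^ (3 * m + 1) * (B * (1 / 2) ^ (N / a))) := by
          gcongr
      _ = _ := by rw [pow_mul]; push_cast; ring
  have h4 : (2 : ℝ) ^ (N / a) ≤ 2 ^ (q + 2 + E * (3 * m + 1)) := by
    have h5 : (1 / 2 : ℝ) ^ (N / a) * 2 ^ (N / a) = 1 := by
      rw [← mul_pow]; norm_num
    have h6 : B * 2 ^ (N / a) ≤ B * 2 ^ (q + 2 + E * (3 * m + 1)) := by
      calc B * 2 ^ (N / a) = 4 * (B / 4) * 2 ^ (N / a) := by ring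
        _ ≤ 4 * (2 ^ q * ((2 : ℝ) ^ (E * (3 * m + 1)) * (B * (1 / 2) ^ (N / a)))) * 2 ^ (N / a) := by
            gcongr
        _ = 4 * 2 ^ q * (2 : ℝ) ^ (E * (3 * m + 1)) * B * ((1 / 2) ^ (N / a) * 2 ^ (N / a)) := by
            ring
        _ = B * 2 ^ (q + 2 + E * (3 * m + 1)) := by
            rw [h5, pow_add, pow_add]; ring
    exact le_of_mul_le_mul_left h6 hBpos
  have h5 := (pow_le_pow_iff_right₀ (show (1 : ℝ) < 2 by norm_num)).1 h4
  calc N / a ≤ q + 2 + E * (3 * m + 1) := h5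
    _ = _ := by ring

end Pool.Agent.W896.HB
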