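import Pool.Agent.W896.HB.Cyl
import Pool.Agent.W896.HP.Sat

/-!
# Machines with a stack and inputs which are made from the files of a generalised inner product
-/

set_option autoImplicit false

open Finset

namespace Pool.Agent.W896.HB

open Pool.Agent.H541R2 Pool.Agent.W896.HP

theorem machine (k : ℕ) : ∃ a : ℕ, 1 ≤ a ∧ ∀ (V ι : Type) (N L q T : ℕ) (p : ι → V)
    (b₀ : V → Bool) (χ : ι → Fin (2 * k + 1)) (pos : V → ℕ)
    (_ : ∀ i j, χ i ≠ χ j → L ≤ Nat.dist (pos (p i)) (pos (p j))) (_ : 0 < L)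
    (X : (Fin (2 * k + 1) → Fin N → Bool) → ι → Bool)
    (_ : ∀ b b' i, b (χ i) = b' (χ i) → X b i = X b' i)
    (σ : ℝ) (_ : σ = 1 ∨ σ = -1) (_ : a ≤ N) (R : Type) (_ : Fintype R) (_ : Nonempty R)
    (U : R → Prog (Fin k) V)
    (_ : ∀ r b l, (U r).Acc (fill p b₀ (X b)) l → gsign univ b = σ)
    (_ : ∀ b, gsign univ b = σ → Nat.card R ≤ 2 ^ q *
      Nat.card {r // ∃ l, (U r).Acc (fill p b₀ (X b)) l ∧ travel pos l ≤ T}),
    ∃ r, N / a ≤ q + 2 +
      (3 * (T / L + k) + 1) * (4 * k + 8 + 4 * Nat.log 2 (Fintype.card (U r).State)) := by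
  classical
  obtain ⟨a, ha, hgip⟩ := gip_lower (κ := Fin k) k
  refine ⟨a, ha, ?_⟩
  intro V ι N L q T p b₀ χ pos hsep hL X hX σ hσ haN R _ _ U hU hl
  obtain ⟨r, hr⟩ := Pool.Agent.H538R4.SP.average
    (fun b : Fin (2 * k + 1) → Fin N → Bool => gsign univ b = σ)
    (fun r b => ∃ l, (U r).Acc (fill p b₀ (X b)) l ∧ travel pos l ≤ T) q (fun b hb => hl _ hb)
  refine ⟨r, hgip ι N (T / L + k) q (fixP p b₀ (U r)) χ X hX σ hσ haN ?_ ?_⟩
  · rintro b ⟨l, hl'⟩
    obtain ⟨l', hl''⟩ := fixP_sound hl'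
    exact hU r _ l' hl''
  · rw [Nat.card_eq_fintype_card, Fintype.card_subtype, Nat.card_eq_fintype_card,
      Fintype.card_subtype] at hr
    refine hr.trans (Nat.mul_le_mul_left _ (card_le_card ?_))
    intro b hb
    rw [mem_filter] at hb ⊢
    refine ⟨mem_univ _, ?_⟩
    obtain ⟨l, h1, h2⟩ := hb.2
    have h3 : (fixP p b₀ (U r)).Acc (X b) (sub p l) := fixP_complete h1
    obtain ⟨Col, e, h4, h5, -, h6⟩ := phases (κ := Fin k) χ 0 (fun i => pos (p i)) L hsep (sub p l)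
    refine ⟨sub p l, Col, e, h3, fun t => by simpa using h4 t, h5, ?_⟩
    have h7 := h6.trans (poten_le _ _ _)
    have h8 := travel_sub p pos l
    rw [Fintype.card_fin] at h7
    have h9 : e * L ≤ T + k * L := by
      refine h7.trans ?_
      have : travel (fun i => pos (p i)) (sub p l) ≤ T := h8.trans h2
      omega
    have h10 : e ≤ (T + k * L) / L := (Nat.le_div_iff_mul_le hL).2 h9
    rwa [Nat.add_mul_div_right _ _ hL] at h10

end Pool.Agent.W896.HB
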