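import Pool.Agent.W896.HB.Braid
import Pool.Agent.W896.HB.Machine

/-!
# Graph isomorphism on machines with a stack
-/

set_option autoImplicit false

open Finset

namespace Pool.Agent.W896.HB

open Equiv Pool.Agent.H541R2 Pool.Agent.W896.HP

variable {n : ℕ}

open Classical in
/-- The entries of the adjacency matrices of two graphs. -/
noncomputable def mats (G H : SimpleGraph (Fin n)) : Bool × Fin n × Fin n → Bool :=
  fun v => decide ((if v.1 = true then H else G).Adj v.2.1 v.2.2)

/-- The position of an entry: the matrix of the first graph is written row by row, then that of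
the second graph. -/
def cellPos (v : Bool × Fin n × Fin n) : ℕ :=
  (if v.1 = true then n * n else 0) + n * v.2.1.val + v.2.2.val

/-- The entries which belong to a crossing. -/
def cr {L : ℕ} (e : BV L ↪ Fin n) (i : Fin L × Fin 5 × Fin 5 × Bool) : Fin n × Fin n :=
  if i.2.2.2 = true then (e (i.1, true, i.2.2.1), e (i.1, false, i.2.1))
  else (e (i.1, false, i.2.1), e (i.1, true, i.2.2.1))

theorem cr_inj {L : ℕ} (e : BV L ↪ Fin n) : Function.Injective (cr e) := by
  rintro ⟨t, a, a', o⟩ ⟨t', c, c', o'⟩ h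
  unfold cr at h
  cases o <;> cases o'
  · simp only [Bool.false_eq_true, if_false, Prod.mk.injEq] at h
    have h1 := e.injective h.1
    have h2 := e.injective h.2
    simp only [Prod.mk.injEq] at h1 h2
    rw [h1.1, h1.2.2, h2.2.2]
  · simp only [Bool.false_eq_true, if_false, if_true, Prod.mk.injEq] at h
    have h1 := e.injective h.1
    simp only [Prod.mk.injEq] at h1
    exact absurd h1.2.1 (by decide)
  · simp only [Bool.false_eq_true, if_false, if_true, Prod.mk.injEq] at h
    have h1 := e.injective h.1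
    simp only [Prod.mk.injEq] at h1
    exact absurd h1.2.1 (by decide)
  · simp only [if_true, Prod.mk.injEq] at h
    have h1 := e.injective h.1
    have h2 := e.injective h.2
    simp only [Prod.mk.injEq] at h1 h2
    rw [h1.1, h1.2.2, h2.2.2]

theorem not_nxt {L : ℕ} (hL : 2 ≤ L) (t : Fin L) : ¬ Nxt t t := by
  rintro (h | ⟨h1, h2⟩) <;> omega

theorem adj_cross {L : ℕ} (hL : 2 ≤ L) (g : Fin L → Perm (Fin 5)) (t : Fin L) (a a' : Fin 5) :
    (braid g).Adj (t, false, a) (t, true, a') ↔ a = g t a' := by
  constructor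
  · rintro (h | h)
    · rcases h.2.2 with h1 | h1
      · exact h1.2
      · exact absurd h1.1 (not_nxt hL t)
    · exact absurd h.1 (by simp)
  · intro h
    exact Or.inl ⟨rfl, rfl, Or.inl ⟨rfl, h⟩⟩

theorem EB_other {L : ℕ} (g g' : Fin L → Perm (Fin 5)) (u v : BV L)
    (h : ¬ (u.2.1 = false ∧ v.2.1 = true ∧ u.1 = v.1)) : EB g u v → EB g' u v := by
  rintro ⟨h1, h2, h3 | h3⟩
  · exact absurd ⟨h1, h2, h3.1⟩ h
  · exact ⟨h1, h2, Or.inr h3⟩

theorem map_other {L : ℕ} (e : BV L ↪ Fin n) (g g' : Fin L → Perm (Fin 5)) (x y : Fin n)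
    (h : ∀ i, cr e i ≠ (x, y)) : ((braid g).map e).Adj x y → ((braid g').map e).Adj x y := by
  rw [SimpleGraph.map_adj, SimpleGraph.map_adj]
  rintro ⟨u, v, huv, rfl, rfl⟩
  refine ⟨u, v, ?_, rfl, rfl⟩
  rcases huv with h1 | h1
  · refine Or.inl (EB_other g g' u v ?_ h1)
    rintro ⟨h2, h3, h4⟩
    refine h (u.1, u.2.2, v.2.2, false) ?_
    obtain ⟨t, s, a⟩ := u
    obtain ⟨t', s', a'⟩ := v
    simp only at h2 h3 h4
    subst h2; subst h3; subst h4
    rfl
  · refine Or.inr (EB_other g g' v u ?_ h1)
    rintro ⟨h2, h3, h4⟩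
    refine h (v.1, v.2.2, u.2.2, true) ?_
    obtain ⟨t, s, a⟩ := u
    obtain ⟨t', s', a'⟩ := v
    simp only at h2 h3 h4
    subst h2; subst h3; subst h4
    rfl

/-- The bits which belong to the crossings. -/
def crossBit {L : ℕ} (g : Fin L → Perm (Fin 5)) (i : Fin L × Fin 5 × Fin 5 × Bool) : Bool :=
  decide (i.2.1 = g i.1 i.2.2.1)

theorem adj_cr {L : ℕ} (hL : 2 ≤ L) (e : BV L ↪ Fin n) (g : Fin L → Perm (Fin 5))
    (i : Fin L × Fin 5 × Fin 5 × Bool) :
    ((braid g).map e).Adj (cr e i).1 (cr e i).2 ↔ i.2.1 = g i.1 i.2.2.1 := by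
  obtain ⟨t, a, a', o⟩ := i
  rw [← adj_cross hL g t a a']
  cases o with
  | false => exact SimpleGraph.map_adj_apply (f := e)
  | true =>
    rw [SimpleGraph.adj_comm]
    exact SimpleGraph.map_adj_apply (f := e)

theorem mats_fill {L : ℕ} (hL : 2 ≤ L) (e : BV L ↪ Fin n) (g g' : Fin L → Perm (Fin 5))
    (H : SimpleGraph (Fin n)) :
    fill (fun i => (false, cr e i)) (mats ((braid g').map e) H) (crossBit g) =
      mats ((braid g).map e) H := by
  classical
  have hp : Function.Injective (fun i : Fin L × Fin 5 × Fin 5 × Bool => (false, cr e i)) :=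
    fun i j h => cr_inj e (Prod.mk.inj h).2
  funext v
  by_cases hv : ∃ i, (false, cr e i) = v
  · obtain ⟨i, rfl⟩ := hv
    rw [fill_apply hp]
    unfold mats crossBit
    simp only [Bool.false_eq_true, if_false]
    exact decide_eq_decide.2 (adj_cr hL e g i).symm
  · push Not at hv
    rw [fill_other _ _ hv]
    obtain ⟨s, x, y⟩ := v
    cases s with
    | true => rfl
    | false =>
      unfold mats
      simp only [Bool.false_eq_true, if_false]
      have h1 : ∀ i, cr e i ≠ (x, y) := fun i h => hv i (by rw [h])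
      exact decide_eq_decide.2 ⟨map_other e g' g x y h1, map_other e g g' x y h1⟩

/-- The graph is isomorphic to the trivial braid if and only if the product is trivial. -/
theorem iso_iff {L : ℕ} (hL : 0 < L) (e : BV L ↪ Fin n) (g : Fin L → Perm (Fin 5))
    (h : (List.ofFn g).prod = 1 ∨ (List.ofFn g).prod = tau) :
    Nonempty ((braid g).map e ≃g (braid (fun _ : Fin L => (1 : Perm (Fin 5)))).map e) ↔
      (List.ofFn g).prod = 1 := by
  constructor
  · rintro ⟨f⟩
    rcases h with h | h
    · exact h
    · exact absurd ((big_tau e g hL h).iso f) (not_big_one e hL)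
  · intro h1
    exact iso_one e g h1

theorem gi_stack (k : ℕ) : ∃ D : ℕ, 0 < D ∧ ∀ (n T : ℕ)
    (Q : SimpleGraph (Fin n) → SimpleGraph (Fin n) → Prop),
    ((Q = fun G H => Nonempty (G ≃g H)) ∨ (Q = fun G H => ¬ Nonempty (G ≃g H))) →
    ∀ (R : Type) [Fintype R] [Nonempty R] (U : R → Prog (Fin k) (Bool × Fin n × Fin n)),
      (∀ r G H l, (U r).Acc (mats G H) l → Q G H) →
      (∀ G H, Q G H → Nat.card R ≤ 2 ^ (n / D) *
        Nat.card {r // ∃ l, (U r).Acc (mats G H) l ∧ travel cellPos l ≤ T}) →
      ∃ r, n ^ 3 ≤ D * ((T + n ^ 2) * (Nat.log 2 (Fintype.card (U r).State) + 1)) := by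
  classical
  obtain ⟨a, ha, hm⟩ := machine k
  obtain ⟨K, hKe⟩ : ∃ K, K = 2 * k + 1 := ⟨_, rfl⟩
  obtain ⟨w, hw⟩ := wordFin K (by omega)
  obtain ⟨c, hc⟩ : ∃ c, c = w.length := ⟨_, rfl⟩
  have hc1 : 1 ≤ c := by
    by_contra hcon
    have : w = [] := List.length_eq_zero_iff.1 (by omega)
    have h1 := hw (fun _ => true)
    rw [this, if_pos (fun _ => rfl), List.map_nil, List.prod_nil] at h1
    exact absurd h1 (by decide)
  obtain ⟨D1, hD1⟩ : ∃ D1, D1 = 40 * c * K := ⟨_, rfl⟩
  obtain ⟨D, hD⟩ : ∃ D, D = 16 * K * (D1 * a) * (2 + (3 * k + 3) * (4 * k + 8)) := ⟨_, rfl⟩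
  have hD1pos : 1 ≤ D1 := by rw [hD1]; exact Nat.mul_pos (Nat.mul_pos (by omega) (by omega)) (by omega)
  have hD2 : 1 ≤ D1 * a := Nat.mul_pos (by omega) (by omega)
  have hbig : 16 * K * (D1 * a) ≤ D := by
    rw [hD]
    exact Nat.le_mul_of_pos_right _ (by omega)
  have hDD : 2 * (D1 * a) ≤ D := by nlinarith
  refine ⟨D, by omega, ?_⟩
  intro n T Q hQ R _ _ U hU hl
  rcases Nat.lt_or_ge n D with hMD | hMD
  · obtain ⟨r⟩ := (inferInstance : Nonempty R)
    refine ⟨r, ?_⟩
    calc n ^ 3 = n * n ^ 2 := by ring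
      _ ≤ D * n ^ 2 := Nat.mul_le_mul_right _ hMD.le
      _ ≤ D * ((T + n ^ 2) * (Nat.log 2 (Fintype.card (U r).State) + 1)) := by
          apply Nat.mul_le_mul_left
          calc n ^ 2 ≤ (T + n ^ 2) * 1 := by omega
            _ ≤ _ := Nat.mul_le_mul_left _ (by omega)
  · obtain ⟨L, hL⟩ : ∃ L, L = n / (2 * K) := ⟨_, rfl⟩
    obtain ⟨N, hN⟩ : ∃ N, N = n / D1 := ⟨_, rfl⟩
    have hNa2 : 2 * a ≤ N := by
      rw [hN, Nat.le_div_iff_mul_le (by omega)]
      calc 2 * a * D1 = 2 * (D1 * a) := by ring
        _ ≤ D := hDD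
        _ ≤ n := hMD
    have hN1 : 2 ≤ N := by omega
    have hND : N * D1 ≤ n := by rw [hN]; exact Nat.div_mul_le_self _ _
    have hlen : (letters w N).length = N * c := by rw [letters_length, hc]
    have hNL : 20 * (N * c) ≤ L := by
      rw [hL, Nat.le_div_iff_mul_le (by omega)]
      calc 20 * (N * c) * (2 * K) = N * D1 := by rw [hD1]; ring
        _ ≤ n := hND
    have hLK : 2 * K * L ≤ n := by rw [hL]; exact Nat.mul_div_le _ _
    have hLn : L ≤ n := by rw [hL]; exact Nat.div_le_self _ _
    have hNc : 2 ≤ N * c := by nlinarith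
    have hLpos : 0 < L := by omega
    have hnpos : 0 < n := by omega
    -- the letters
    obtain ⟨W, hWdef⟩ : ∃ W : Fin (N * c) → (Fin K × Fin N) × Perm (Fin 5),
        ∀ f : (Fin K × Fin N) × Perm (Fin 5) → Perm (Fin 5),
        List.ofFn (fun t => f (W t)) = (letters w N).map f := by
      refine ⟨fun t => (letters w N)[t.val]'(by rw [hlen]; exact t.isLt), fun f => ?_⟩
      apply List.ext_getElem
      · rw [List.length_ofFn, List.length_map, hlen]
      · intro i h1 h2
        rw [List.getElem_ofFn, List.getElem_map]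
    -- the positions
    have hlt : ∀ u : BV (N * c), (W u.1).1.1.val * (2 * L) +
        (10 * u.1.val + (if u.2.1 = true then 5 else 0) + u.2.2.val) < n := by
      rintro ⟨t, s, x⟩
      have h1 := (W t).1.1.isLt
      have h2 := t.isLt
      have h3 := x.isLt
      simp only
      have h4 : ((W t).1.1.val + 1) * (2 * L) ≤ K * (2 * L) := Nat.mul_le_mul_right _ h1
      have h5 : ((W t).1.1.val + 1) * (2 * L) = (W t).1.1.val * (2 * L) + 2 * L := by ring
      have h6 : K * (2 * L) = 2 * K * L := by ring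
      split_ifs <;> omega
    have hsmall : ∀ u : BV (N * c),
        10 * u.1.val + (if u.2.1 = true then 5 else 0) + u.2.2.val < L := by
      rintro ⟨t, s, x⟩
      have h2 := t.isLt
      have h3 := x.isLt
      simp only
      split_ifs <;> omega
    obtain ⟨e, he⟩ : ∃ e : BV (N * c) ↪ Fin n, ∀ u, (e u).val = (W u.1).1.1.val * (2 * L) +
        (10 * u.1.val + (if u.2.1 = true then 5 else 0) + u.2.2.val) := by
      refine ⟨⟨fun u => ⟨_, hlt u⟩, ?_⟩, fun u => rfl⟩
      intro u v huv
      have h1 : (W u.1).1.1.val * (2 * L) +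
          (10 * u.1.val + (if u.2.1 = true then 5 else 0) + u.2.2.val) =
          (W v.1).1.1.val * (2 * L) +
          (10 * v.1.val + (if v.2.1 = true then 5 else 0) + v.2.2.val) := by simpa using huv
      have hu := hsmall u
      have hv := hsmall v
      have h2 : (W u.1).1.1.val = (W v.1).1.1.val := by
        rcases Nat.lt_trichotomy (W u.1).1.1.val (W v.1).1.1.val with h3 | h3 | h3
        · have : ((W u.1).1.1.val + 1) * (2 * L) ≤ (W v.1).1.1.val * (2 * L) :=
            Nat.mul_le_mul_right _ h3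
          have h5 : ((W u.1).1.1.val + 1) * (2 * L) = (W u.1).1.1.val * (2 * L) + 2 * L := by ring
          omega
        · exact h3
        · have : ((W v.1).1.1.val + 1) * (2 * L) ≤ (W u.1).1.1.val * (2 * L) :=
            Nat.mul_le_mul_right _ h3
          have h5 : ((W v.1).1.1.val + 1) * (2 * L) = (W v.1).1.1.val * (2 * L) + 2 * L := by ring
          omega
      rw [h2] at h1
      obtain ⟨t, s, x⟩ := u
      obtain ⟨t', s', x'⟩ := v
      have h3 := x.isLt
      have h4 := x'.isLt
      simp only at h1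
      have h6 : t = t' ∧ s = s' ∧ x = x' := by
        cases s <;> cases s' <;> simp only [Bool.false_eq_true, if_false, if_true] at h1
        · exact ⟨Fin.ext (by omega), rfl, Fin.ext (by omega)⟩
        · omega
        · omega
        · exact ⟨Fin.ext (by omega), rfl, Fin.ext (by omega)⟩
      obtain ⟨rfl, rfl, rfl⟩ := h6
      rfl
    subst hKe
    obtain ⟨H, hH⟩ : ∃ H : SimpleGraph (Fin n),
        H = (braid (fun _ : Fin (N * c) => (1 : Perm (Fin 5)))).map e := ⟨_, rfl⟩
    obtain ⟨g, hg⟩ : ∃ g : (Fin (2 * k + 1) → Fin N → Bool) → Fin (N * c) → Perm (Fin 5),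
        ∀ b t, g b t = lval (fun i : Fin (2 * k + 1) × Fin N => b i.1 i.2) (W t) :=
      ⟨fun b t => lval (fun i : Fin (2 * k + 1) × Fin N => b i.1 i.2) (W t), fun _ _ => rfl⟩
    have hprod : ∀ b, (List.ofFn (g b)).prod =
        if Odd (univ.filter (fun j : Fin N => ∀ i, b i j = true)).card then tau else 1 := by
      intro b
      have h1 : List.ofFn (g b) = (letters w N).map
          (lval (fun i : Fin (2 * k + 1) × Fin N => b i.1 i.2)) := by
        rw [← hWdef]
        congr 1
        funext t
        exact hg b t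
      rw [h1, letters_prod w hw]
    have hiso : ∀ b, Nonempty ((braid (g b)).map e ≃g H) ↔ gsign univ b = 1 := by
      intro b
      rw [hH, iso_iff (by omega) e (g b) (by rw [hprod]; split_ifs <;> simp), hprod, gsign_eq]
      by_cases ho : Odd (univ.filter (fun j : Fin N => ∀ i, b i j = true)).card
      · simp only [ho, if_true]
        constructor
        · intro h; exact absurd h (by decide)
        · intro h; norm_num at h
      · simp only [ho, if_false]
    have hrange : ∀ b : Fin (2 * k + 1) → Fin N → Bool, gsign univ b = 1 ∨ gsign univ b = -1 := by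
      intro b
      rw [gsign_eq]
      split_ifs <;> simp
    obtain ⟨σ, hσ, hσ'⟩ : ∃ σ : ℝ, (σ = 1 ∨ σ = -1) ∧
        ∀ b, Q ((braid (g b)).map e) H ↔ gsign univ b = σ := by
      rcases hQ with rfl | rfl
      · exact ⟨1, Or.inl rfl, hiso⟩
      · refine ⟨-1, Or.inr rfl, fun b => ?_⟩
        change ¬ Nonempty (_ ≃g _) ↔ _
        rw [hiso]
        rcases hrange b with h | h
        · rw [h]; norm_num
        · rw [h]; norm_num
    have hfill : ∀ b, fill (fun i => (false, cr e i)) (mats H H) (crossBit (g b)) =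
        mats ((braid (g b)).map e) H := by
      intro b
      have := mats_fill hNc e (g b) (fun _ => 1) H
      rwa [← hH] at this
    obtain ⟨r, hr⟩ := hm (Bool × Fin n × Fin n) (Fin (N * c) × Fin 5 × Fin 5 × Bool) N (n * L)
      (n / D) T (fun i => (false, cr e i)) (mats H H) (fun i => (W i.1).1.1) cellPos (by
        rintro ⟨t, x, x', o⟩ ⟨t', y, y', o'⟩ hne
        simp only at hne ⊢
        have hv : (W t).1.1.val ≠ (W t').1.1.val := fun h => hne (Fin.ext h)
        obtain ⟨u, hu, hu'⟩ : ∃ u : BV (N * c), u.1 = t ∧ (cr e (t, x, x', o)).1 = e u := by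
          unfold cr
          cases o
          · exact ⟨(t, false, x), rfl, rfl⟩
          · exact ⟨(t, true, x'), rfl, rfl⟩
        obtain ⟨v, hv1, hv'⟩ : ∃ v : BV (N * c), v.1 = t' ∧ (cr e (t', y, y', o')).1 = e v := by
          unfold cr
          cases o'
          · exact ⟨(t', false, y), rfl, rfl⟩
          · exact ⟨(t', true, y'), rfl, rfl⟩
        have e1 := he u
        have e2 := he v
        have s1 := hsmall u
        have s2 := hsmall v
        rw [hu] at e1 s1
        rw [hv1] at e2 s2
        have c1 := (cr e (t, x, x', o)).2.isLt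
        have c2 := (cr e (t', y, y', o')).2.isLt
        unfold cellPos
        simp only [Bool.false_eq_true, if_false, zero_add]
        rw [hu', hv']
        rcases Nat.lt_or_ge (W t).1.1.val (W t').1.1.val with h3 | h3
        · have h4 : ((W t).1.1.val + 1) * (2 * L) ≤ (W t').1.1.val * (2 * L) :=
            Nat.mul_le_mul_right _ h3
          have h5 : ((W t).1.1.val + 1) * (2 * L) = (W t).1.1.val * (2 * L) + 2 * L := by ring
          have h6 : (e u).val + L + 1 ≤ (e v).val := by omega
          have h7 : n * ((e u).val + L + 1) ≤ n * (e v).val := Nat.mul_le_mul_left _ h6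
          have h8 : n * ((e u).val + L + 1) = n * (e u).val + n * L + n := by ring
          rw [Nat.dist_eq_sub_of_le (by omega)]
          omega
        · have h3' : (W t').1.1.val + 1 ≤ (W t).1.1.val := by omega
          have h4 : ((W t').1.1.val + 1) * (2 * L) ≤ (W t).1.1.val * (2 * L) :=
            Nat.mul_le_mul_right _ h3'
          have h5 : ((W t').1.1.val + 1) * (2 * L) = (W t').1.1.val * (2 * L) + 2 * L := by ring
          have h6 : (e v).val + L + 1 ≤ (e u).val := by omega
          have h7 : n * ((e v).val + L + 1) ≤ n * (e u).val := Nat.mul_le_mul_left _ h6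
          have h8 : n * ((e v).val + L + 1) = n * (e v).val + n * L + n := by ring
          rw [Nat.dist_eq_sub_of_le_right (by omega)]
          omega)
      (Nat.mul_pos hnpos hLpos) (fun b => crossBit (g b)) (by
        rintro b b' ⟨t, x, x', o⟩ hbb
        unfold crossBit
        simp only at hbb ⊢
        have h1 : g b t = g b' t := by
          rw [hg, hg]
          unfold lval
          simp only [hbb]
        rw [h1]) σ hσ (by omega) R inferInstance inferInstance U (by
        intro r b l hacc
        rw [hfill] at hacc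
        exact (hσ' b).1 (hU r _ _ l hacc)) (by
        intro b hb
        have h1 := hl _ _ ((hσ' b).2 hb)
        rw [hfill]
        exact h1)
    refine ⟨r, ?_⟩
    have hNa' : N / a = n / (D1 * a) := by rw [hN, Nat.div_div_eq_div_mul]
    have hTL : T / (n * L) = T / n / L := (Nat.div_div_eq_div_mul _ _ _).symm
    rw [hNa', hTL] at hr
    have hlg : 4 * k + 8 + 4 * Nat.log 2 (Fintype.card (U r).State) ≤
        (4 * k + 8) * (Nat.log 2 (Fintype.card (U r).State) + 1) := by nlinarith
    have h2 := arith (c1 := 4 * k + 8) (T := T / n) (lg := Nat.log 2 (Fintype.card (U r).State))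
      (by omega) hD2 hD hMD hL
      (hr.trans (Nat.add_le_add_left (Nat.mul_le_mul_left _ hlg) _))
    calc n ^ 3 = n * (n * n) := by ring
      _ ≤ n * (D * ((T / n + n) * (Nat.log 2 (Fintype.card (U r).State) + 1))) :=
          Nat.mul_le_mul_left _ h2
      _ = D * ((T / n * n + n ^ 2) * (Nat.log 2 (Fintype.card (U r).State) + 1)) := by ring
      _ ≤ _ := by
          have := Nat.div_mul_le_self T n
          gcongr

end Pool.Agent.W896.HB
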