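import Pool.Agent.W896.HB.Ring

/-!
# Hamiltonicity on machines with a stack
-/

set_option autoImplicit false
set_option maxHeartbeats 1000000

namespace Pool.Agent.W896.HB

open Finset
open Equiv Pool.Agent.H541R2 Pool.Agent.W896.HP
open Classical in

theorem exists_ext {L m n : ℕ} (e : BV L ↪ Fin n) (h : 10 * L + m = n) :
    ∃ φ : BH L m ≃ Fin n, em φ = e := by
  classical
  have hc : Fintype.card ↥((Set.range e)ᶜ) = m := by
    rw [Fintype.card_compl_set, Set.card_range_of_injective e.injective, Fintype.card_fin,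
      Fintype.card_prod, Fintype.card_prod, Fintype.card_fin, Fintype.card_bool, Fintype.card_fin]
    omega
  refine ⟨(Equiv.sumCongr (Equiv.ofInjective e e.injective)
    (Fintype.equivFinOfCardEq hc).symm).trans (Equiv.Set.sumCompl (Set.range e)), ?_⟩
  ext u
  rfl

theorem ham_stack (k : ℕ) : ∃ D : ℕ, 0 < D ∧ ∀ (n T : ℕ) (Q : SimpleGraph (Fin n) → Prop),
    ((Q = fun G => G.IsHamiltonian) ∨ (Q = fun G => ¬ G.IsHamiltonian)) →
    ∀ (R : Type) [Fintype R] [Nonempty R] (U : R → Prog (Fin k) (Fin n × Fin n)),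
      (∀ r G l, (U r).Acc (mat G) l → Q G) →
      (∀ G, Q G → Nat.card R ≤ 2 ^ (n / D) *
        Nat.card {r // ∃ l, (U r).Acc (mat G) l ∧ travel cellAt l ≤ T}) →
      ∃ r, n ^ 3 ≤ D * ((T + n ^ 2) * (Nat.log 2 (Fintype.card (U r).State) + 1)) := by
  classical
  obtain ⟨a, ha, hm⟩ := machine k
  obtain ⟨K, hKe⟩ : ∃ K, K = 2 * k + 1 := ⟨_, rfl⟩
  obtain ⟨w, hw⟩ := wordFin K (by omega)
  obtain ⟨c, hc⟩ : ∃ c, c = w.length := ⟨_, rfl⟩
  have hc1 : 1 ≤ c := by
    by_contra hcon
    have : w = [] := List.length_eq_zero_iff.1 (by omega)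
    have h1 := hw (fun _ => true)
    rw [this, if_pos (fun _ => rfl), List.map_nil, List.prod_nil] at h1
    exact absurd h1 (by decide)
  obtain ⟨D1, hD1⟩ : ∃ D1, D1 = 40 * c * K := ⟨_, rfl⟩
  obtain ⟨D, hD⟩ : ∃ D, D = 16 * K * (D1 * a) * (2 + (3 * k + 3) * (4 * k + 8)) := ⟨_, rfl⟩
  have hD1pos : 1 ≤ D1 := by rw [hD1]; exact Nat.mul_pos (Nat.mul_pos (by omega) (by omega)) (by omega)
  have hD2 : 1 ≤ D1 * a := Nat.mul_pos (by omega) (by omega)
  have hbig : 16 * K * (D1 * a) ≤ D := by
    rw [hD]
    exact Nat.le_mul_of_pos_right _ (by omega)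
  have hDD : 2 * (D1 * a) ≤ D := by nlinarith
  refine ⟨D, by omega, ?_⟩
  intro n T Q hQ R _ _ U hU hl
  rcases Nat.lt_or_ge n D with hMD | hMD
  · obtain ⟨r⟩ := (inferInstance : Nonempty R)
    refine ⟨r, ?_⟩
    calc n ^ 3 = n * n ^ 2 := by ring
      _ ≤ D * n ^ 2 := Nat.mul_le_mul_right _ hMD.le
      _ ≤ D * ((T + n ^ 2) * (Nat.log 2 (Fintype.card (U r).State) + 1)) := by
          apply Nat.mul_le_mul_left
          calc n ^ 2 ≤ (T + n ^ 2) * 1 := by omega
            _ ≤ _ := Nat.mul_le_mul_left _ (by omega)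
  · obtain ⟨L, hL⟩ : ∃ L, L = n / (2 * K) := ⟨_, rfl⟩
    obtain ⟨N, hN⟩ : ∃ N, N = n / D1 := ⟨_, rfl⟩
    have hNa2 : 2 * a ≤ N := by
      rw [hN, Nat.le_div_iff_mul_le (by omega)]
      calc 2 * a * D1 = 2 * (D1 * a) := by ring
        _ ≤ D := hDD
        _ ≤ n := hMD
    have hN1 : 2 ≤ N := by omega
    have hND : N * D1 ≤ n := by rw [hN]; exact Nat.div_mul_le_self _ _
    have hlen : (letters w N).length = N * c := by rw [letters_length, hc]
    have hNL : 20 * (N * c) ≤ L := by
      rw [hL, Nat.le_div_iff_mul_le (by omega)]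
      calc 20 * (N * c) * (2 * K) = N * D1 := by rw [hD1]; ring
        _ ≤ n := hND
    have hLK : 2 * K * L ≤ n := by rw [hL]; exact Nat.mul_div_le _ _
    have hLn : L ≤ n := by rw [hL]; exact Nat.div_le_self _ _
    have hNc : 2 ≤ N * c := by nlinarith
    have hLpos : 0 < L := by omega
    have hnpos : 0 < n := by omega
    -- the letters
    obtain ⟨W, hWdef⟩ : ∃ W : Fin (N * c) → (Fin K × Fin N) × Perm (Fin 5),
        ∀ f : (Fin K × Fin N) × Perm (Fin 5) → Perm (Fin 5),
        List.ofFn (fun t => f (W t)) = (letters w N).map f := by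
      refine ⟨fun t => (letters w N)[t.val]'(by rw [hlen]; exact t.isLt), fun f => ?_⟩
      apply List.ext_getElem
      · rw [List.length_ofFn, List.length_map, hlen]
      · intro i h1 h2
        rw [List.getElem_ofFn, List.getElem_map]
    -- the positions
    have hlt : ∀ u : BV (N * c), (W u.1).1.1.val * (2 * L) +
        (10 * u.1.val + (if u.2.1 = true then 5 else 0) + u.2.2.val) < n := by
      rintro ⟨t, s, x⟩
      have h1 := (W t).1.1.isLt
      have h2 := t.isLt
      have h3 := x.isLt
      simp only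
      have h4 : ((W t).1.1.val + 1) * (2 * L) ≤ K * (2 * L) := Nat.mul_le_mul_right _ h1
      have h5 : ((W t).1.1.val + 1) * (2 * L) = (W t).1.1.val * (2 * L) + 2 * L := by ring
      have h6 : K * (2 * L) = 2 * K * L := by ring
      split_ifs <;> omega
    have hsmall : ∀ u : BV (N * c),
        10 * u.1.val + (if u.2.1 = true then 5 else 0) + u.2.2.val < L := by
      rintro ⟨t, s, x⟩
      have h2 := t.isLt
      have h3 := x.isLt
      simp only
      split_ifs <;> omega
    obtain ⟨e, he⟩ : ∃ e : BV (N * c) ↪ Fin n, ∀ u, (e u).val = (W u.1).1.1.val * (2 * L) +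
        (10 * u.1.val + (if u.2.1 = true then 5 else 0) + u.2.2.val) := by
      refine ⟨⟨fun u => ⟨_, hlt u⟩, ?_⟩, fun u => rfl⟩
      intro u v huv
      have h1 : (W u.1).1.1.val * (2 * L) +
          (10 * u.1.val + (if u.2.1 = true then 5 else 0) + u.2.2.val) =
          (W v.1).1.1.val * (2 * L) +
          (10 * v.1.val + (if v.2.1 = true then 5 else 0) + v.2.2.val) := by simpa using huv
      have hu := hsmall u
      have hv := hsmall v
      have h2 : (W u.1).1.1.val = (W v.1).1.1.val := by
        rcases Nat.lt_trichotomy (W u.1).1.1.val (W v.1).1.1.val with h3 | h3 | h3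
        · have : ((W u.1).1.1.val + 1) * (2 * L) ≤ (W v.1).1.1.val * (2 * L) :=
            Nat.mul_le_mul_right _ h3
          have h5 : ((W u.1).1.1.val + 1) * (2 * L) = (W u.1).1.1.val * (2 * L) + 2 * L := by ring
          omega
        · exact h3
        · have : ((W v.1).1.1.val + 1) * (2 * L) ≤ (W u.1).1.1.val * (2 * L) :=
            Nat.mul_le_mul_right _ h3
          have h5 : ((W v.1).1.1.val + 1) * (2 * L) = (W v.1).1.1.val * (2 * L) + 2 * L := by ring
          omega
      rw [h2] at h1
      obtain ⟨t, s, x⟩ := u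
      obtain ⟨t', s', x'⟩ := v
      have h3 := x.isLt
      have h4 := x'.isLt
      simp only at h1
      have h6 : t = t' ∧ s = s' ∧ x = x' := by
        cases s <;> cases s' <;> simp only [Bool.false_eq_true, if_false, if_true] at h1
        · exact ⟨Fin.ext (by omega), rfl, Fin.ext (by omega)⟩
        · omega
        · omega
        · exact ⟨Fin.ext (by omega), rfl, Fin.ext (by omega)⟩
      obtain ⟨rfl, rfl, rfl⟩ := h6
      rfl
    subst hKe
    obtain ⟨m, hmn⟩ : ∃ m, 10 * (N * c) + m = n := ⟨n - 10 * (N * c), by omega⟩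
    have hm1 : 1 ≤ m := by omega
    obtain ⟨φ, hφ⟩ := exists_ext e hmn
    obtain ⟨g, hg⟩ : ∃ g : (Fin (2 * k + 1) → Fin N → Bool) → Fin (N * c) → Perm (Fin 5),
        ∀ b t, g b t = lval (fun i : Fin (2 * k + 1) × Fin N => b i.1 i.2) (W t) :=
      ⟨fun b t => lval (fun i : Fin (2 * k + 1) × Fin N => b i.1 i.2) (W t), fun _ _ => rfl⟩
    have hprod : ∀ b, (List.ofFn (g b)).prod =
        if Odd (univ.filter (fun j : Fin N => ∀ i, b i j = true)).card then tau else 1 := by
      intro b
      have h1 : List.ofFn (g b) = (letters w N).map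
          (lval (fun i : Fin (2 * k + 1) × Fin N => b i.1 i.2)) := by
        rw [← hWdef]
        congr 1
        funext t
        exact hg b t
      rw [h1, letters_prod w hw]
    have hiso : ∀ b, ((ring (m := m) (g b)).map φ).IsHamiltonian ↔ gsign univ b = 1 := by
      intro b
      rw [ring_iff (by omega) hm1 φ (g b) (by rw [hprod]; split_ifs <;> simp), hprod, gsign_eq]
      by_cases ho : Odd (univ.filter (fun j : Fin N => ∀ i, b i j = true)).card
      · simp only [ho, if_true]
        constructor
        · intro h; exact absurd h (by decide)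
        · intro h; norm_num at h
      · simp only [ho, if_false]
    have hrange : ∀ b : Fin (2 * k + 1) → Fin N → Bool, gsign univ b = 1 ∨ gsign univ b = -1 := by
      intro b
      rw [gsign_eq]
      split_ifs <;> simp
    obtain ⟨σ, hσ, hσ'⟩ : ∃ σ : ℝ, (σ = 1 ∨ σ = -1) ∧
        ∀ b, Q ((ring (m := m) (g b)).map φ) ↔ gsign univ b = σ := by
      rcases hQ with rfl | rfl
      · exact ⟨1, Or.inl rfl, hiso⟩
      · refine ⟨-1, Or.inr rfl, fun b => ?_⟩
        change ¬ SimpleGraph.IsHamiltonian _ ↔ _
        rw [hiso]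
        rcases hrange b with h | h
        · rw [h]; norm_num
        · rw [h]; norm_num
    obtain ⟨x0, hx0⟩ : ∃ x0, x0 = mat ((ring (L := N * c) (m := m) (fun _ => 1)).map φ) := ⟨_, rfl⟩
    have hfill : ∀ b, fill (cr e) x0 (crossBit (g b)) = mat ((ring (m := m) (g b)).map φ) := by
      intro b
      have := mat_fill hNc φ (g b) (fun _ => 1)
      rwa [hφ, ← hx0] at this
    obtain ⟨r, hr⟩ := hm (Fin n × Fin n) (Fin (N * c) × Fin 5 × Fin 5 × Bool) N (n * L)
      (n / D) T (cr e) x0 (fun i => (W i.1).1.1) cellAt (by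
        rintro ⟨t, x, x', o⟩ ⟨t', y, y', o'⟩ hne
        simp only at hne ⊢
        have hv : (W t).1.1.val ≠ (W t').1.1.val := fun h => hne (Fin.ext h)
        obtain ⟨u, hu, hu'⟩ : ∃ u : BV (N * c), u.1 = t ∧ (cr e (t, x, x', o)).1 = e u := by
          unfold cr
          cases o
          · exact ⟨(t, false, x), rfl, rfl⟩
          · exact ⟨(t, true, x'), rfl, rfl⟩
        obtain ⟨v, hv1, hv'⟩ : ∃ v : BV (N * c), v.1 = t' ∧ (cr e (t', y, y', o')).1 = e v := by
          unfold cr
          cases o'
          · exact ⟨(t', false, y), rfl, rfl⟩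
          · exact ⟨(t', true, y'), rfl, rfl⟩
        have e1 := he u
        have e2 := he v
        have s1 := hsmall u
        have s2 := hsmall v
        rw [hu] at e1 s1
        rw [hv1] at e2 s2
        have c1 := (cr e (t, x, x', o)).2.isLt
        have c2 := (cr e (t', y, y', o')).2.isLt
        unfold cellAt
        rw [hu', hv']
        rcases Nat.lt_or_ge (W t).1.1.val (W t').1.1.val with h3 | h3
        · have h4 : ((W t).1.1.val + 1) * (2 * L) ≤ (W t').1.1.val * (2 * L) :=
            Nat.mul_le_mul_right _ h3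
          have h5 : ((W t).1.1.val + 1) * (2 * L) = (W t).1.1.val * (2 * L) + 2 * L := by ring
          have h6 : (e u).val + L + 1 ≤ (e v).val := by omega
          have h7 : n * ((e u).val + L + 1) ≤ n * (e v).val := Nat.mul_le_mul_left _ h6
          have h8 : n * ((e u).val + L + 1) = n * (e u).val + n * L + n := by ring
          rw [Nat.dist_eq_sub_of_le (by omega)]
          omega
        · have h3' : (W t').1.1.val + 1 ≤ (W t).1.1.val := by omega
          have h4 : ((W t').1.1.val + 1) * (2 * L) ≤ (W t).1.1.val * (2 * L) :=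
            Nat.mul_le_mul_right _ h3'
          have h5 : ((W t').1.1.val + 1) * (2 * L) = (W t').1.1.val * (2 * L) + 2 * L := by ring
          have h6 : (e v).val + L + 1 ≤ (e u).val := by omega
          have h7 : n * ((e v).val + L + 1) ≤ n * (e u).val := Nat.mul_le_mul_left _ h6
          have h8 : n * ((e v).val + L + 1) = n * (e v).val + n * L + n := by ring
          rw [Nat.dist_eq_sub_of_le_right (by omega)]
          omega)
      (Nat.mul_pos hnpos hLpos) (fun b => crossBit (g b)) (by
        rintro b b' ⟨t, x, x', o⟩ hbb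
        unfold crossBit
        simp only at hbb ⊢
        have h1 : g b t = g b' t := by
          rw [hg, hg]
          unfold lval
          simp only [hbb]
        rw [h1]) σ hσ (by omega) R inferInstance inferInstance U (by
        intro r b l hacc
        rw [hfill] at hacc
        exact (hσ' b).1 (hU r _ l hacc)) (by
        intro b hb
        have h1 := hl _ ((hσ' b).2 hb)
        rw [hfill]
        exact h1)
    refine ⟨r, ?_⟩
    have hNa' : N / a = n / (D1 * a) := by rw [hN, Nat.div_div_eq_div_mul]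
    have hTL : T / (n * L) = T / n / L := (Nat.div_div_eq_div_mul _ _ _).symm
    rw [hNa', hTL] at hr
    have hlg : 4 * k + 8 + 4 * Nat.log 2 (Fintype.card (U r).State) ≤
        (4 * k + 8) * (Nat.log 2 (Fintype.card (U r).State) + 1) := by nlinarith
    have h2 := arith (c1 := 4 * k + 8) (T := T / n) (lg := Nat.log 2 (Fintype.card (U r).State))
      (by omega) hD2 hD hMD hL
      (hr.trans (Nat.add_le_add_left (Nat.mul_le_mul_left _ hlg) _))
    calc n ^ 3 = n * (n * n) := by ring
      _ ≤ n * (D * ((T / n + n) * (Nat.log 2 (Fintype.card (U r).State) + 1))) :=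
          Nat.mul_le_mul_left _ h2
      _ = D * ((T / n * n + n ^ 2) * (Nat.log 2 (Fintype.card (U r).State) + 1)) := by ring
      _ ≤ _ := by
          have := Nat.div_mul_le_self T n
          gcongr

end Pool.Agent.W896.HB
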