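import Pool.Agent.W896.HB.HamStack

/-!
# Matrices which contain a braid, on machines with a stack
-/

set_option autoImplicit false
set_option maxHeartbeats 1000000

open Finset

namespace Pool.Agent.W896.HB

open Equiv Pool.Agent.H541R2 Pool.Agent.W896.HP

/-- Machines with a stack, a matrix whose entries at the crossings are those of a braid. -/
theorem mat_core (k : ℕ) : ∃ c D : ℕ, 1 ≤ c ∧ 0 < D ∧ ∀ n, D ≤ n → ∃ (N : ℕ)
    (e : BV (N * c) ↪ Fin n), 2 ≤ N * c ∧ 20 * (N * c) ≤ n ∧
    (∀ u, 0 < (e u).val ∧ (e u).val + 1 < n) ∧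
    ∀ (X : (Fin (N * c) → Perm (Fin 5)) → Fin n × Fin n → Bool) (ν : Bool),
      (∀ g g', fill (cr e) (X g') (fun i => xor ν (crossBit g i)) = X g) →
    ∀ (T : ℕ) (Q : (Fin n × Fin n → Bool) → Prop),
      ((∀ g, ((List.ofFn g).prod = 1 ∨ (List.ofFn g).prod = tau) →
        (Q (X g) ↔ (List.ofFn g).prod = 1)) ∨
       (∀ g, ((List.ofFn g).prod = 1 ∨ (List.ofFn g).prod = tau) →
        (Q (X g) ↔ ¬ (List.ofFn g).prod = 1))) →
    ∀ (R : Type) [Fintype R] [Nonempty R] (U : R → Prog (Fin k) (Fin n × Fin n)),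
      (∀ r g l, (U r).Acc (X g) l → Q (X g)) →
      (∀ g, Q (X g) → Nat.card R ≤ 2 ^ (n / D) *
        Nat.card {r // ∃ l, (U r).Acc (X g) l ∧ travel cellAt l ≤ T}) →
      ∃ r, n ^ 3 ≤ D * ((T + n ^ 2) * (Nat.log 2 (Fintype.card (U r).State) + 1)) := by
  classical
  obtain ⟨a, ha, hm⟩ := machine k
  obtain ⟨K, hKe⟩ : ∃ K, K = 2 * k + 1 := ⟨_, rfl⟩
  obtain ⟨w, hw⟩ := wordFin K (by omega)
  obtain ⟨c, hc⟩ : ∃ c, c = w.length := ⟨_, rfl⟩
  have hc1 : 1 ≤ c := by
    by_contra hcon
    have : w = [] := List.length_eq_zero_iff.1 (by omega)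
    have h1 := hw (fun _ => true)
    rw [this, if_pos (fun _ => rfl), List.map_nil, List.prod_nil] at h1
    exact absurd h1 (by decide)
  obtain ⟨D1, hD1⟩ : ∃ D1, D1 = 40 * c * K := ⟨_, rfl⟩
  obtain ⟨D, hD⟩ : ∃ D, D = 16 * K * (D1 * a) * (2 + (3 * k + 3) * (4 * k + 8)) := ⟨_, rfl⟩
  have hD1pos : 1 ≤ D1 := by rw [hD1]; exact Nat.mul_pos (Nat.mul_pos (by omega) (by omega)) (by omega)
  have hD2 : 1 ≤ D1 * a := Nat.mul_pos (by omega) (by omega)
  have hbig : 16 * K * (D1 * a) ≤ D := by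
    rw [hD]
    exact Nat.le_mul_of_pos_right _ (by omega)
  have hDD : 2 * (D1 * a) ≤ D := by nlinarith
  refine ⟨c, D, hc1, by omega, ?_⟩
  intro n hMD
  obtain ⟨L, hL⟩ : ∃ L, L = n / (2 * K) := ⟨_, rfl⟩
  obtain ⟨N, hN⟩ : ∃ N, N = n / D1 := ⟨_, rfl⟩
  have hNa2 : 2 * a ≤ N := by
    rw [hN, Nat.le_div_iff_mul_le (by omega)]
    calc 2 * a * D1 = 2 * (D1 * a) := by ring
      _ ≤ D := hDD
      _ ≤ n := hMD
  have hN1 : 2 ≤ N := by omega
  have hND : N * D1 ≤ n := by rw [hN]; exact Nat.div_mul_le_self _ _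
  have hlen : (letters w N).length = N * c := by rw [letters_length, hc]
  have hNL : 20 * (N * c) ≤ L := by
    rw [hL, Nat.le_div_iff_mul_le (by omega)]
    calc 20 * (N * c) * (2 * K) = N * D1 := by rw [hD1]; ring
      _ ≤ n := hND
  have hLK : 2 * K * L ≤ n := by rw [hL]; exact Nat.mul_div_le _ _
  have hLn : L ≤ n := by rw [hL]; exact Nat.div_le_self _ _
  have hNc : 2 ≤ N * c := by nlinarith
  have hLpos : 0 < L := by omega
  have hnpos : 0 < n := by omega
  -- the letters
  obtain ⟨W, hWdef⟩ : ∃ W : Fin (N * c) → (Fin K × Fin N) × Perm (Fin 5),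
      ∀ f : (Fin K × Fin N) × Perm (Fin 5) → Perm (Fin 5),
      List.ofFn (fun t => f (W t)) = (letters w N).map f := by
    refine ⟨fun t => (letters w N)[t.val]'(by rw [hlen]; exact t.isLt), fun f => ?_⟩
    apply List.ext_getElem
    · rw [List.length_ofFn, List.length_map, hlen]
    · intro i h1 h2
      rw [List.getElem_ofFn, List.getElem_map]
  -- the positions
  have hlt : ∀ u : BV (N * c), (W u.1).1.1.val * (2 * L) +
      (1 + 10 * u.1.val + (if u.2.1 = true then 5 else 0) + u.2.2.val) + 1 < n := by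
    rintro ⟨t, s, x⟩
    have h1 := (W t).1.1.isLt
    have h2 := t.isLt
    have h3 := x.isLt
    simp only
    have h4 : ((W t).1.1.val + 1) * (2 * L) ≤ K * (2 * L) := Nat.mul_le_mul_right _ h1
    have h5 : ((W t).1.1.val + 1) * (2 * L) = (W t).1.1.val * (2 * L) + 2 * L := by ring
    have h6 : K * (2 * L) = 2 * K * L := by ring
    split_ifs <;> omega
  have hsmall : ∀ u : BV (N * c),
      1 + 10 * u.1.val + (if u.2.1 = true then 5 else 0) + u.2.2.val < L := by
    rintro ⟨t, s, x⟩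
    have h2 := t.isLt
    have h3 := x.isLt
    simp only
    split_ifs <;> omega
  obtain ⟨e, he⟩ : ∃ e : BV (N * c) ↪ Fin n, ∀ u, (e u).val = (W u.1).1.1.val * (2 * L) +
      (1 + 10 * u.1.val + (if u.2.1 = true then 5 else 0) + u.2.2.val) := by
    refine ⟨⟨fun u => ⟨_, (Nat.lt_succ_self _).trans (hlt u)⟩, ?_⟩, fun u => rfl⟩
    intro u v huv
    have h1 : (W u.1).1.1.val * (2 * L) +
        (1 + 10 * u.1.val + (if u.2.1 = true then 5 else 0) + u.2.2.val) =
        (W v.1).1.1.val * (2 * L) +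
        (1 + 10 * v.1.val + (if v.2.1 = true then 5 else 0) + v.2.2.val) := congrArg Fin.val huv
    have hu := hsmall u
    have hv := hsmall v
    have h2 : (W u.1).1.1.val = (W v.1).1.1.val := by
      rcases Nat.lt_trichotomy (W u.1).1.1.val (W v.1).1.1.val with h3 | h3 | h3
      · have : ((W u.1).1.1.val + 1) * (2 * L) ≤ (W v.1).1.1.val * (2 * L) :=
          Nat.mul_le_mul_right _ h3
        have h5 : ((W u.1).1.1.val + 1) * (2 * L) = (W u.1).1.1.val * (2 * L) + 2 * L := by ring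
        omega
      · exact h3
      · have : ((W v.1).1.1.val + 1) * (2 * L) ≤ (W u.1).1.1.val * (2 * L) :=
          Nat.mul_le_mul_right _ h3
        have h5 : ((W v.1).1.1.val + 1) * (2 * L) = (W v.1).1.1.val * (2 * L) + 2 * L := by ring
        omega
    rw [h2] at h1
    obtain ⟨t, s, x⟩ := u
    obtain ⟨t', s', x'⟩ := v
    have h3 := x.isLt
    have h4 := x'.isLt
    simp only at h1
    have h6 : t = t' ∧ s = s' ∧ x = x' := by
      cases s <;> cases s' <;> simp only [Bool.false_eq_true, if_false, if_true] at h1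
      · exact ⟨Fin.ext (by omega), rfl, Fin.ext (by omega)⟩
      · omega
      · omega
      · exact ⟨Fin.ext (by omega), rfl, Fin.ext (by omega)⟩
    obtain ⟨rfl, rfl, rfl⟩ := h6
    rfl
  subst hKe
  refine ⟨N, e, hNc, by omega, fun u => ⟨by rw [he]; omega, by rw [he]; exact hlt u⟩, ?_⟩
  intro X ν hX T Q hQ R _ _ U hU hl
  obtain ⟨g, hg⟩ : ∃ g : (Fin (2 * k + 1) → Fin N → Bool) → Fin (N * c) → Perm (Fin 5),
      ∀ b t, g b t = lval (fun i : Fin (2 * k + 1) × Fin N => b i.1 i.2) (W t) :=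
    ⟨fun b t => lval (fun i : Fin (2 * k + 1) × Fin N => b i.1 i.2) (W t), fun _ _ => rfl⟩
  have hprod : ∀ b, (List.ofFn (g b)).prod =
      if Odd (univ.filter (fun j : Fin N => ∀ i, b i j = true)).card then tau else 1 := by
    intro b
    have h1 : List.ofFn (g b) = (letters w N).map
        (lval (fun i : Fin (2 * k + 1) × Fin N => b i.1 i.2)) := by
      rw [← hWdef]
      congr 1
      funext t
      exact hg b t
    rw [h1, letters_prod w hw]
  have hiso : ∀ b, ((List.ofFn (g b)).prod = 1 ↔ gsign univ b = 1) := by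
    intro b
    rw [hprod, gsign_eq]
    by_cases ho : Odd (univ.filter (fun j : Fin N => ∀ i, b i j = true)).card
    · simp only [ho, if_true]
      constructor
      · intro h; exact absurd h (by decide)
      · intro h; norm_num at h
    · simp only [ho, if_false]
  have hor : ∀ b, ((List.ofFn (g b)).prod = 1 ∨ (List.ofFn (g b)).prod = tau) := by
    intro b
    rw [hprod]; split_ifs <;> simp
  have hrange : ∀ b : Fin (2 * k + 1) → Fin N → Bool, gsign univ b = 1 ∨ gsign univ b = -1 := by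
    intro b
    rw [gsign_eq]
    split_ifs <;> simp
  obtain ⟨σ, hσ, hσ'⟩ : ∃ σ : ℝ, (σ = 1 ∨ σ = -1) ∧ ∀ b, Q (X (g b)) ↔ gsign univ b = σ := by
    rcases hQ with hQ | hQ
    · exact ⟨1, Or.inl rfl, fun b => (hQ _ (hor b)).trans (hiso b)⟩
    · refine ⟨-1, Or.inr rfl, fun b => ?_⟩
      rw [hQ _ (hor b), hiso]
      rcases hrange b with h | h
      · rw [h]; norm_num
      · rw [h]; norm_num
  obtain ⟨x0, hx0⟩ : ∃ x0, x0 = X (fun _ => 1) := ⟨_, rfl⟩
  have hfill : ∀ b, fill (cr e) x0 (fun i => xor ν (crossBit (g b) i)) = X (g b) := by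
    intro b
    rw [hx0]
    exact hX _ _
  obtain ⟨r, hr⟩ := hm (Fin n × Fin n) (Fin (N * c) × Fin 5 × Fin 5 × Bool) N (n * L)
    (n / D) T (cr e) x0 (fun i => (W i.1).1.1) cellAt (by
      rintro ⟨t, x, x', o⟩ ⟨t', y, y', o'⟩ hne
      simp only at hne ⊢
      have hv : (W t).1.1.val ≠ (W t').1.1.val := fun h => hne (Fin.ext h)
      obtain ⟨u, hu, hu'⟩ : ∃ u : BV (N * c), u.1 = t ∧ (cr e (t, x, x', o)).1 = e u := by
        unfold cr
        cases o
        · exact ⟨(t, false, x), rfl, rfl⟩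
        · exact ⟨(t, true, x'), rfl, rfl⟩
      obtain ⟨v, hv1, hv'⟩ : ∃ v : BV (N * c), v.1 = t' ∧ (cr e (t', y, y', o')).1 = e v := by
        unfold cr
        cases o'
        · exact ⟨(t', false, y), rfl, rfl⟩
        · exact ⟨(t', true, y'), rfl, rfl⟩
      have e1 := he u
      have e2 := he v
      have s1 := hsmall u
      have s2 := hsmall v
      rw [hu] at e1 s1
      rw [hv1] at e2 s2
      have c1 := (cr e (t, x, x', o)).2.isLt
      have c2 := (cr e (t', y, y', o')).2.isLt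
      unfold cellAt
      rw [hu', hv']
      rcases Nat.lt_or_ge (W t).1.1.val (W t').1.1.val with h3 | h3
      · have h4 : ((W t).1.1.val + 1) * (2 * L) ≤ (W t').1.1.val * (2 * L) :=
          Nat.mul_le_mul_right _ h3
        have h5 : ((W t).1.1.val + 1) * (2 * L) = (W t).1.1.val * (2 * L) + 2 * L := by ring
        have h6 : (e u).val + L + 1 ≤ (e v).val := by omega
        have h7 : n * ((e u).val + L + 1) ≤ n * (e v).val := Nat.mul_le_mul_left _ h6
        have h8 : n * ((e u).val + L + 1) = n * (e u).val + n * L + n := by ring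
        rw [Nat.dist_eq_sub_of_le (by omega)]
        omega
      · have h3' : (W t').1.1.val + 1 ≤ (W t).1.1.val := by omega
        have h4 : ((W t').1.1.val + 1) * (2 * L) ≤ (W t).1.1.val * (2 * L) :=
          Nat.mul_le_mul_right _ h3'
        have h5 : ((W t').1.1.val + 1) * (2 * L) = (W t').1.1.val * (2 * L) + 2 * L := by ring
        have h6 : (e v).val + L + 1 ≤ (e u).val := by omega
        have h7 : n * ((e v).val + L + 1) ≤ n * (e u).val := Nat.mul_le_mul_left _ h6
        have h8 : n * ((e v).val + L + 1) = n * (e v).val + n * L + n := by ring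
        rw [Nat.dist_eq_sub_of_le_right (by omega)]
        omega)
    (Nat.mul_pos hnpos hLpos) (fun b i => xor ν (crossBit (g b) i)) (by
      rintro b b' ⟨t, x, x', o⟩ hbb
      unfold crossBit
      simp only at hbb ⊢
      have h1 : g b t = g b' t := by
        rw [hg, hg]
        unfold lval
        simp only [hbb]
      rw [h1]) σ hσ (by omega) R inferInstance inferInstance U (by
      intro r b l hacc
      rw [hfill] at hacc
      exact (hσ' b).1 (hU r _ l hacc)) (by
      intro b hb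
      have h1 := hl _ ((hσ' b).2 hb)
      rw [hfill]
      exact h1)
  refine ⟨r, ?_⟩
  have hNa' : N / a = n / (D1 * a) := by rw [hN, Nat.div_div_eq_div_mul]
  have hTL : T / (n * L) = T / n / L := (Nat.div_div_eq_div_mul _ _ _).symm
  rw [hNa', hTL] at hr
  have hlg : 4 * k + 8 + 4 * Nat.log 2 (Fintype.card (U r).State) ≤
      (4 * k + 8) * (Nat.log 2 (Fintype.card (U r).State) + 1) := by nlinarith
  have h2 := arith (c1 := 4 * k + 8) (T := T / n) (lg := Nat.log 2 (Fintype.card (U r).State))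
    (by omega) hD2 hD hMD hL
    (hr.trans (Nat.add_le_add_left (Nat.mul_le_mul_left _ hlg) _))
  calc n ^ 3 = n * (n * n) := by ring
    _ ≤ n * (D * ((T / n + n) * (Nat.log 2 (Fintype.card (U r).State) + 1))) :=
        Nat.mul_le_mul_left _ h2
    _ = D * ((T / n * n + n ^ 2) * (Nat.log 2 (Fintype.card (U r).State) + 1)) := by ring
    _ ≤ _ := by
        have := Nat.div_mul_le_self T n
        gcongr

end Pool.Agent.W896.HB
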