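import Pool.Agent.W896.HB.Reach
import Pool.Agent.W896.FD.PM

/-!
# Perfect matchings on machines with a stack
-/

set_option autoImplicit false
set_option maxHeartbeats 1000000

open Finset

namespace Pool.Agent.W896.HB

open Equiv Pool.Agent.H541R2 Pool.Agent.W896.HP Pool.Agent.W896.FD

variable {L n : ℕ}

/-- Straightening the open braid. -/
def strO (g : Fin L → Perm (Fin 5)) : Perm (BV L ⊕ Bool) :=
  Equiv.sumCongr (str g) (Equiv.refl Bool)

theorem EO_str {g : Fin L → Perm (Fin 5)} (h : (List.ofFn g).prod = 1) (u v : BV L ⊕ Bool) :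
    EO (fun _ => 1) (strO g u) (strO g v) ↔ EO g u v := by
  rcases u with u | o <;> rcases v with v | o'
  · obtain ⟨t, s, a⟩ := u
    obtain ⟨t', s', a'⟩ := v
    change (_ ∨ _) ↔ (_ ∨ _)
    apply or_congr
    · change (s = false ∧ s' = true ∧ t = t' ∧ lev g (t, s, a) a =
        (1 : Perm (Fin 5)) (lev g (t', s', a') a')) ↔
        (s = false ∧ s' = true ∧ t = t' ∧ a = g t a')
      apply and_congr_right
      rintro rfl
      apply and_congr_right
      rintro rfl
      apply and_congr_right
      rintro rfl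
      unfold lev
      simp only [Bool.false_eq_true, if_false, if_true, add_zero]
      rw [pre_succ, Perm.mul_apply, Perm.one_apply]
      exact (pre g t.val).injective.eq_iff
    · change (s = true ∧ s' = false ∧ t'.val = t.val + 1 ∧ lev g (t, s, a) a =
        lev g (t', s', a') a') ↔ (s = true ∧ s' = false ∧ t'.val = t.val + 1 ∧ a = a')
      apply and_congr_right
      rintro rfl
      apply and_congr_right
      rintro rfl
      apply and_congr_right
      intro ht
      unfold lev
      simp only [Bool.false_eq_true, if_false, if_true, add_zero]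
      rw [ht]
      exact (pre g (t.val + 1)).injective.eq_iff
  · obtain ⟨t, s, a⟩ := u
    change (o' = true ∧ s = true ∧ t.val + 1 = L ∧ lev g (t, s, a) a = 0) ↔
      (o' = true ∧ s = true ∧ t.val + 1 = L ∧ a = 0)
    apply and_congr_right
    rintro rfl
    apply and_congr_right
    rintro rfl
    apply and_congr_right
    intro ht
    unfold lev
    simp only [if_true]
    rw [ht, pre_last, h]
    rfl
  · obtain ⟨t, s, a⟩ := v
    change (o = false ∧ s = false ∧ t.val = 0 ∧ lev g (t, s, a) a = 0) ↔
      (o = false ∧ s = false ∧ t.val = 0 ∧ a = 0)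
    apply and_congr_right
    rintro rfl
    apply and_congr_right
    rintro rfl
    apply and_congr_right
    intro ht
    unfold lev
    simp only [Bool.false_eq_true, if_false, add_zero]
    rw [ht, pre_zero]
    rfl
  · exact Iff.rfl

/-- The straightened open braid. -/
def opnIso {g : Fin L → Perm (Fin 5)} (h : (List.ofFn g).prod = 1) :
    opn g ≃g opn (fun _ : Fin L => (1 : Perm (Fin 5))) where
  toEquiv := strO g
  map_rel_iff' := by
    intro u v
    exact or_congr (EO_str h u v) (EO_str h v u)

/-- The matching of the straight braid. -/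
def mate (hL : 1 ≤ L) : BV L ⊕ Bool → BV L ⊕ Bool
  | .inr o => if o = true then .inl (⟨L - 1, by omega⟩, true, 0) else .inl (⟨0, by omega⟩, false, 0)
  | .inl u =>
      if u.2.2 = 0 then
        if u.2.1 = true then
          if h : u.1.val + 1 < L then .inl (⟨u.1.val + 1, h⟩, false, 0) else .inr true
        else
          if u.1.val = 0 then .inr false
          else .inl (⟨u.1.val - 1, by have := u.1.isLt; omega⟩, true, 0)
      else .inl (u.1, !u.2.1, u.2.2)

theorem pmap_opn_one (hL : 1 ≤ L) : PMap (opn (fun _ : Fin L => (1 : Perm (Fin 5)))) := by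
  refine ⟨mate hL, ?_, ?_⟩
  · rintro (⟨t, s, a⟩ | o)
    · unfold mate
      by_cases ha : a = 0
      · subst ha
        cases s with
        | true =>
          by_cases h : t.val + 1 < L
          · simp only [if_true, h, dif_pos]
            exact Or.inl (Or.inr ⟨rfl, rfl, rfl, rfl⟩)
          · simp only [if_true, h, dif_neg, not_false_eq_true]
            have := t.isLt
            exact Or.inl ⟨rfl, rfl, by simp only; omega, rfl⟩
        | false =>
          by_cases h : t.val = 0
          · simp only [if_true, h, Bool.false_eq_true, if_false]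
            exact Or.inr ⟨rfl, rfl, h, rfl⟩
          · simp only [if_true, h, Bool.false_eq_true, if_false]
            refine Or.inr (Or.inr ⟨rfl, rfl, ?_, rfl⟩)
            simp only
            omega
      · simp only [ha, if_false]
        cases s with
        | true => exact Or.inr (Or.inl ⟨rfl, rfl, rfl, rfl⟩)
        | false => exact Or.inl (Or.inl ⟨rfl, rfl, rfl, rfl⟩)
    · cases o with
      | true => exact Or.inr ⟨rfl, rfl, by simp only; omega, rfl⟩
      | false => exact Or.inl ⟨rfl, rfl, rfl, rfl⟩
  · rintro (⟨t, s, a⟩ | o)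
    · by_cases ha : a = 0
      · subst ha
        cases s with
        | true =>
          by_cases h : t.val + 1 < L
          · simp [mate, h]
          · have := t.isLt
            have h2 : L - 1 = t.val := by omega
            simp only [mate, h, if_true, dif_neg, not_false_eq_true]
            congr 2
            exact Fin.ext h2
        | false =>
          by_cases h : t.val = 0
          · simp only [mate, h, if_true, Bool.false_eq_true, if_false]
            congr 2
            exact Fin.ext h.symm
          · have := t.isLt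
            have h2 : t.val - 1 + 1 < L := by omega
            simp only [mate, h, if_true, Bool.false_eq_true, if_false, h2, dif_pos]
            congr 2
            exact Fin.ext (by simp only; omega)
      · simp [mate, ha]
    · cases o with
      | true =>
        have h2 : ¬ (L - 1 + 1 < L) := by omega
        simp [mate, h2]
      | false => simp [mate]

theorem pmap_opn (hL : 1 ≤ L) {g : Fin L → Perm (Fin 5)} (h : (List.ofFn g).prod = 1) :
    PMap (opn g) :=
  PMap.iso (opnIso h).symm (pmap_opn_one hL)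

/-- The closed braid with a clique on the other vertices. -/
def pmG (ψ : BV L ⊕ Bool ↪ Fin n) (g : Fin L → Perm (Fin 5)) : SimpleGraph (Fin n) where
  Adj x y := ((opn g).map ψ).Adj x y ∨ (x ≠ y ∧ x ∉ Set.range ψ ∧ y ∉ Set.range ψ)
  symm := ⟨fun _ _ h => h.elim (fun h => Or.inl h.symm) (fun h => Or.inr ⟨h.1.symm, h.2.2, h.2.1⟩)⟩
  loopless := ⟨fun _ h => h.elim (fun h => h.ne rfl) (fun h => h.1 rfl)⟩

theorem pmG_adj (ψ : BV L ⊕ Bool ↪ Fin n) (g : Fin L → Perm (Fin 5)) (x y : Fin n) :
    (pmG ψ g).Adj x y ↔
      ((opn g).map ψ).Adj x y ∨ (x ≠ y ∧ x ∉ Set.range ψ ∧ y ∉ Set.range ψ) := Iff.rfl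

theorem pmG_apply (ψ : BV L ⊕ Bool ↪ Fin n) (g : Fin L → Perm (Fin 5)) (u v : BV L ⊕ Bool) :
    (pmG ψ g).Adj (ψ u) (ψ v) ↔ (opn g).Adj u v := by
  rw [pmG_adj, SimpleGraph.map_adj_apply]
  constructor
  · rintro (h | ⟨-, h, -⟩)
    · exact h
    · exact absurd ⟨u, rfl⟩ h
  · exact Or.inl

theorem pmG_fill (ψ : BV L ⊕ Bool ↪ Fin n) (g g' : Fin L → Perm (Fin 5)) :
    fill (cr (emb ψ)) (mat (pmG ψ g')) (fun i => xor false (crossBit g i)) =
      mat (pmG ψ g) := by
  classical
  have hp : Function.Injective (cr (emb ψ)) := cr_inj (emb ψ)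
  funext v
  by_cases hv : ∃ i, cr (emb ψ) i = v
  · obtain ⟨i, rfl⟩ := hv
    rw [fill_apply hp, Bool.false_xor]
    unfold mat crossBit
    refine decide_eq_decide.2 ?_
    rw [← opn_cr ψ g i, pmG_adj]
    constructor
    · exact Or.inl
    · rintro (h | ⟨-, h, -⟩)
      · exact h
      · exfalso
        apply h
        obtain ⟨t, x, x', o⟩ := i
        cases o with
        | false => exact ⟨.inl (t, false, x), rfl⟩
        | true => exact ⟨.inl (t, true, x'), rfl⟩
  · push Not at hv
    rw [fill_other _ _ hv]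
    obtain ⟨x, y⟩ := v
    unfold mat
    refine decide_eq_decide.2 ?_
    rw [pmG_adj, pmG_adj]
    exact or_congr ⟨opn_other ψ g' g x y hv, opn_other ψ g g' x y hv⟩ Iff.rfl

/-- A fixed point free involution on a type with an even number of elements. -/
theorem even_invol {X : Type} [Fintype X] (h : Even (Fintype.card X)) :
    ∃ f : X → X, (∀ x, f x ≠ x) ∧ ∀ x, f (f x) = x := by
  obtain ⟨m, hm⟩ := h
  have e : X ≃ Fin m × Bool := Fintype.equivOfCardEq (by
    rw [Fintype.card_prod, Fintype.card_fin, Fintype.card_bool]; omega)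
  refine ⟨fun x => e.symm ((e x).1, !(e x).2), fun x hx => ?_, fun x => ?_⟩
  · have h1 := congrArg e hx
    simp only [Equiv.apply_symm_apply] at h1
    have h2 := congrArg Prod.snd h1
    simp at h2
  · simp

/-- A set which is closed under a fixed point free involution is even. -/
theorem invol_even {X : Type} [DecidableEq X] (S : Finset X) (f : X → X) (h1 : ∀ x, f x ≠ x)
    (h2 : ∀ x, f (f x) = x) (h3 : ∀ x ∈ S, f x ∈ S) : Even S.card := by
  have h : ∑ x ∈ S, (1 : ZMod 2) = 0 := by
    refine Finset.sum_involution (fun x _ => f x) ?_ ?_ ?_ ?_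
    · intro x _
      decide
    · intro x _ _
      exact h1 x
    · intro x hx
      exact h3 x hx
    · intro x _
      exact h2 x
  rw [Finset.sum_const, nsmul_eq_mul, mul_one] at h
  exact (ZMod.natCast_eq_zero_iff_even).1 h

theorem pmap_pmG (hL : 1 ≤ L) (ψ : BV L ⊕ Bool ↪ Fin n) (hn : Even n)
    {g : Fin L → Perm (Fin 5)} (h : (List.ofFn g).prod = 1) : PMap (pmG ψ g) := by
  classical
  obtain ⟨f, hf1, hf2⟩ := pmap_opn hL h
  have hcard : Even (Fintype.card {x : Fin n // x ∉ Set.range ψ}) := by
    have h1 : Fintype.card {x : Fin n // x ∉ Set.range ψ} =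
        n - Fintype.card (BV L ⊕ Bool) := by
      rw [Fintype.card_subtype_compl, Fintype.card_fin]
      congr 1
      exact Set.card_range_of_injective ψ.injective
    have h2 : Fintype.card (BV L ⊕ Bool) = 2 * (5 * L + 1) := by
      rw [Fintype.card_sum, Fintype.card_prod, Fintype.card_prod, Fintype.card_fin,
        Fintype.card_bool, Fintype.card_fin]
      ring
    rw [h1, h2]
    obtain ⟨m, rfl⟩ := hn
    exact ⟨m - (5 * L + 1), by omega⟩
  obtain ⟨q, hq1, hq2⟩ := even_invol hcard
  obtain ⟨F, hF⟩ : ∃ F : Fin n → Fin n, F = fun x =>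
      if hx : x ∈ Set.range ψ then ψ (f hx.choose) else (q ⟨x, hx⟩).1 := ⟨_, rfl⟩
  have hFr : ∀ u, F (ψ u) = ψ (f u) := by
    intro u
    have hx : ψ u ∈ Set.range ψ := ⟨u, rfl⟩
    rw [hF]
    simp only [hx, dif_pos]
    congr 2
    exact ψ.injective hx.choose_spec
  have hFc : ∀ x (hx : x ∉ Set.range ψ), F x = (q ⟨x, hx⟩).1 := by
    intro x hx
    rw [hF]
    simp only [hx, dif_neg, not_false_eq_true]
  refine ⟨F, ?_, ?_⟩
  · intro x
    by_cases hx : x ∈ Set.range ψ
    · obtain ⟨u, rfl⟩ := hx
      rw [hFr, pmG_apply]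
      exact hf1 u
    · rw [hFc x hx, pmG_adj]
      refine Or.inr ⟨fun h => hq1 ⟨x, hx⟩ (Subtype.ext h.symm), hx, (q ⟨x, hx⟩).2⟩
  · intro x
    by_cases hx : x ∈ Set.range ψ
    · obtain ⟨u, rfl⟩ := hx
      rw [hFr, hFr, hf2]
    · rw [hFc x hx, hFc _ (q ⟨x, hx⟩).2]
      change (q (q ⟨x, hx⟩)).1 = x
      rw [hq2]

theorem not_pmap_pmG (ψ : BV L ⊕ Bool ↪ Fin n) {g : Fin L → Perm (Fin 5)}
    (h : (List.ofFn g).prod = tau) : ¬ PMap (pmG ψ g) := by
  classical
  have hpL : pre g L = tau := by rw [pre_last, h]
  obtain ⟨Y, hY⟩ : ∃ Y : Set (BV L ⊕ Bool), Y = {u | match u with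
    | .inl u' => lev g u' u'.2.2 = 0
    | .inr o => o = false} := ⟨_, rfl⟩
  have hYl : ∀ u, (Sum.inl u : BV L ⊕ Bool) ∈ Y ↔ lev g u u.2.2 = 0 := by
    intro u; rw [hY]; rfl
  have hYr : ∀ o, (Sum.inr o : BV L ⊕ Bool) ∈ Y ↔ o = false := by
    intro o; rw [hY]; rfl
  have hclosed : ∀ u v : BV L ⊕ Bool, EO g u v → (u ∈ Y ↔ v ∈ Y) := by
    rintro (u | j) (v | j') huv
    · rw [hYl, hYl]
      obtain ⟨t, s, a⟩ := u
      obtain ⟨t', s', a'⟩ := v
      rcases huv with ⟨e1, e2, e3, e4⟩ | ⟨e1, e2, e3, e4⟩
      · simp only at e1 e2 e3 e4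
        subst e1; subst e2; subst e3
        unfold lev
        simp only [Bool.false_eq_true, if_false, if_true, add_zero]
        rw [pre_succ, Perm.mul_apply, e4]
      · simp only at e1 e2 e3 e4
        subst e1; subst e2; subst e4
        unfold lev
        simp only [Bool.false_eq_true, if_false, if_true, add_zero]
        rw [e3]
    · obtain ⟨e1, e2, e3, e4⟩ := huv
      rw [hYl, hYr, e1]
      unfold lev
      rw [if_pos e2, e3, hpL, e4]
      exact ⟨fun h => absurd h (by decide), fun h => absurd h (by decide)⟩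
    · obtain ⟨e1, e2, e3, e4⟩ := huv
      rw [hYl, hYr, e1]
      unfold lev
      rw [e2, e3]
      simp only [Bool.false_eq_true, if_false, add_zero]
      rw [pre_zero, e4]
      simp
    · exact huv.elim
  rintro ⟨f, hf1, hf2⟩
  -- the partner of a vertex of the braid
  have hf3 : ∀ u, ∃ v, f (ψ u) = ψ v ∧ (opn g).Adj u v := by
    intro u
    have h1 := hf1 (ψ u)
    rw [pmG_adj] at h1
    rcases h1 with h1 | h1
    · rw [SimpleGraph.map_adj] at h1
      obtain ⟨u', v, huv, h2, h3⟩ := h1
      rw [ψ.injective h2] at huv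
      exact ⟨v, h3.symm, huv⟩
    · exact absurd ⟨u, rfl⟩ h1.2.1
  choose p hp1 hp2 using hf3
  have hpp : ∀ u, p (p u) = u := by
    intro u
    apply ψ.injective
    rw [← hp1, ← hp1, hf2]
  have heven := invol_even (univ.filter (fun u => u ∈ Y)) p (fun u hu => by
      have := hp2 u
      rw [hu] at this
      exact this.ne rfl) hpp (fun u hu => by
      rw [mem_filter] at hu ⊢
      refine ⟨mem_univ _, ?_⟩
      rcases hp2 u with h1 | h1
      · exact (hclosed _ _ h1).1 hu.2
      · exact (hclosed _ _ h1).2 hu.2)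
  have hcard : (univ.filter (fun u => u ∈ Y)).card = 2 * L + 1 := by
    have h1 : Nat.card (Option (Fin L × Bool)) = 2 * L + 1 := by
      rw [Nat.card_eq_fintype_card, Fintype.card_option, Fintype.card_prod, Fintype.card_fin,
        Fintype.card_bool, mul_comm]
    rw [← h1, Nat.card_eq_fintype_card, ← Fintype.card_subtype]
    refine Fintype.card_congr ?_
    refine (Equiv.ofBijective (fun o : Option (Fin L × Bool) => (match o with
      | none => ⟨.inr false, (hYr false).2 rfl⟩
      | some q => ⟨.inl (q.1, q.2, (lev g (q.1, q.2, 0))⁻¹ 0), (hYl _).2 (by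
          change lev g (q.1, q.2, 0) ((lev g (q.1, q.2, 0))⁻¹ 0) = 0
          simp)⟩ : {u // u ∈ Y})) ⟨?_, ?_⟩).symm
    · intro o o' ho
      rcases o with _ | ⟨t, s⟩ <;> rcases o' with _ | ⟨t', s'⟩
      · rfl
      · have := congrArg Subtype.val ho
        exact absurd this (by simp)
      · have := congrArg Subtype.val ho
        exact absurd this (by simp)
      · have := congrArg Subtype.val ho
        simp only [Sum.inl.injEq, Prod.mk.injEq] at this
        rw [this.1, this.2.1]
    · rintro ⟨u | o, hu⟩
      · obtain ⟨t, s, a⟩ := u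
        refine ⟨some (t, s), ?_⟩
        apply Subtype.ext
        have h3 := (hYl _).1 hu
        simp only [Sum.inl.injEq, Prod.mk.injEq, true_and]
        change lev g (t, s, 0) a = 0 at h3
        rw [Perm.inv_eq_iff_eq]
        exact h3.symm
      · have h3 := (hYr _).1 hu
        subst h3
        exact ⟨none, rfl⟩
  rw [hcard] at heven
  rw [Nat.even_iff] at heven
  omega

/-- **Perfect matchings.** -/
theorem pm_stack (k : ℕ) : ∃ D : ℕ, 0 < D ∧ ∀ (n T : ℕ), Even n →
    ∀ (Q : SimpleGraph (Fin n) → Prop),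
    ((Q = fun G => ∃ M : G.Subgraph, M.IsPerfectMatching) ∨
      (Q = fun G => ¬ ∃ M : G.Subgraph, M.IsPerfectMatching)) →
    ∀ (R : Type) [Fintype R] [Nonempty R] (U : R → Prog (Fin k) (Fin n × Fin n)),
      (∀ r G l, (U r).Acc (mat G) l → Q G) →
      (∀ G, Q G → Nat.card R ≤ 2 ^ (n / D) *
        Nat.card {r // ∃ l, (U r).Acc (mat G) l ∧ travel cellAt l ≤ T}) →
      ∃ r, n ^ 3 ≤ D * ((T + n ^ 2) * (Nat.log 2 (Fintype.card (U r).State) + 1)) := by
  classical
  obtain ⟨c, D, hc, hD, hcore⟩ := mat_core k
  refine ⟨D, hD, ?_⟩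
  intro n T hn Q hQ R _ _ U hU hl
  rcases Nat.lt_or_ge n D with hMD | hMD
  · obtain ⟨r⟩ := (inferInstance : Nonempty R)
    refine ⟨r, ?_⟩
    calc n ^ 3 = n * n ^ 2 := by ring
      _ ≤ D * n ^ 2 := Nat.mul_le_mul_right _ hMD.le
      _ ≤ D * ((T + n ^ 2) * (Nat.log 2 (Fintype.card (U r).State) + 1)) := by
          apply Nat.mul_le_mul_left
          calc n ^ 2 ≤ (T + n ^ 2) * 1 := by omega
            _ ≤ _ := Nat.mul_le_mul_left _ (by omega)
  obtain ⟨N, e, hN2, hNn, he, hmain⟩ := hcore n hMD
  obtain ⟨ψ, hψ⟩ : ∃ ψ : BV (N * c) ⊕ Bool ↪ Fin n, emb ψ = e := by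
    refine ⟨⟨Sum.elim e (fun o => if o = true then ⟨n - 1, by omega⟩ else ⟨0, by omega⟩), ?_⟩,
      ?_⟩
    · rintro (u | o) (v | o') h
      · exact congrArg _ (e.injective h)
      · exfalso
        have h1 := congrArg Fin.val h
        have h2 := he u
        cases o' with
        | false =>
          change (e u).val = 0 at h1
          omega
        | true =>
          change (e u).val = n - 1 at h1
          omega
      · exfalso
        have h1 := congrArg Fin.val h
        have h2 := he v
        cases o with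
        | false =>
          change 0 = (e v).val at h1
          omega
        | true =>
          change n - 1 = (e v).val at h1
          omega
      · have h1 := congrArg Fin.val h
        cases o <;> cases o'
        · rfl
        · change 0 = n - 1 at h1
          omega
        · change n - 1 = 0 at h1
          omega
        · rfl
    · ext u; rfl
  subst hψ
  have hiff : ∀ g : Fin (N * c) → Perm (Fin 5),
      ((List.ofFn g).prod = 1 ∨ (List.ofFn g).prod = tau) →
      ((∃ M : (pmG ψ g).Subgraph, M.IsPerfectMatching) ↔ (List.ofFn g).prod = 1) := by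
    intro g hg
    rw [pmap_iff]
    constructor
    · intro hH
      rcases hg with h | h
      · exact h
      · exact absurd hH (not_pmap_pmG ψ h)
    · exact pmap_pmG (by omega) ψ hn
  obtain ⟨Q', hQ'⟩ : ∃ Q' : (Fin n × Fin n → Bool) → Prop,
      Q' = fun x => ∀ G : SimpleGraph (Fin n), mat G = x → Q G := ⟨_, rfl⟩
  have hmat : ∀ G H : SimpleGraph (Fin n), mat G = mat H → G = H := by
    intro G H h
    ext x y
    have := congrFun h (x, y)
    unfold mat at this
    exact decide_eq_decide.1 this
  have hQQ : ∀ G, Q' (mat G) ↔ Q G := by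
    intro G
    rw [hQ']
    constructor
    · intro h; exact h G rfl
    · intro h H hH
      rw [hmat H G hH]
      exact h
  refine hmain (fun g => mat (pmG ψ g)) false (fun g g' => pmG_fill ψ g g') T Q' ?_ R U ?_ ?_
  · rcases hQ with rfl | rfl
    · refine Or.inl (fun g hg => ?_)
      rw [hQQ]
      exact hiff g hg
    · refine Or.inr (fun g hg => ?_)
      rw [hQQ]
      exact not_congr (hiff g hg)
  · intro r g l h
    rw [hQQ]
    exact hU r _ l h
  · intro g h
    rw [hQQ] at h
    exact hl _ h

end Pool.Agent.W896.HB
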