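import Pool.Agent.W896.HB.MatCore

/-!
# Reachability on machines with a stack
-/

set_option autoImplicit false
set_option maxHeartbeats 1000000

open Finset

namespace Pool.Agent.W896.HB

open Equiv Pool.Agent.H541R2 Pool.Agent.W896.HP

variable {L n : ℕ}

/-- The edges of the open braid with the two ends: the source is joined to the beginning of the
strand `0` and the target to the end at the place `0`. -/
def EO (g : Fin L → Perm (Fin 5)) : BV L ⊕ Bool → BV L ⊕ Bool → Prop
  | .inl u, .inl v =>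
      (u.2.1 = false ∧ v.2.1 = true ∧ u.1 = v.1 ∧ u.2.2 = g u.1 v.2.2) ∨
      (u.2.1 = true ∧ v.2.1 = false ∧ v.1.val = u.1.val + 1 ∧ u.2.2 = v.2.2)
  | .inl u, .inr o => o = true ∧ u.2.1 = true ∧ u.1.val + 1 = L ∧ u.2.2 = 0
  | .inr o, .inl v => o = false ∧ v.2.1 = false ∧ v.1.val = 0 ∧ v.2.2 = 0
  | .inr _, .inr _ => False

/-- The open braid. -/
def opn (g : Fin L → Perm (Fin 5)) : SimpleGraph (BV L ⊕ Bool) where
  Adj u v := EO g u v ∨ EO g v u
  symm := ⟨fun _ _ h => h.symm⟩
  loopless := ⟨fun u h => by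
    have h' : EO g u u := h.elim id id
    rcases u with u | o
    · rcases h' with h1 | h1
      · exact absurd (h1.1.symm.trans h1.2.1) (by decide)
      · exact absurd (h1.1.symm.trans h1.2.1) (by decide)
    · exact h'⟩

theorem opn_cross (g : Fin L → Perm (Fin 5)) (t : Fin L) (a a' : Fin 5) :
    (opn g).Adj (.inl (t, false, a)) (.inl (t, true, a')) ↔ a = g t a' := by
  constructor
  · rintro ((h | h) | (h | h))
    · exact h.2.2.2
    · exact absurd h.1 (by simp)
    · exact absurd h.1 (by simp)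
    · have := h.2.2.1; simp only at this; omega
  · intro h
    exact Or.inl (Or.inl ⟨rfl, rfl, rfl, h⟩)

/-- The edges which do not belong to a crossing. -/
theorem EO_other (g g' : Fin L → Perm (Fin 5)) (u v : BV L ⊕ Bool)
    (h : ¬ ∃ u' v', u = .inl u' ∧ v = .inl v' ∧ u'.2.1 = false ∧ v'.2.1 = true ∧ u'.1 = v'.1) :
    EO g u v → EO g' u v := by
  rcases u with u | j <;> rcases v with v | j'
  · rintro (h1 | h1)
    · exact absurd ⟨u, v, rfl, rfl, h1.1, h1.2.1, h1.2.2.1⟩ h
    · exact Or.inr h1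
  · exact fun h => h
  · exact fun h => h
  · exact fun h => h

/-- The embedding of the braid. -/
def emb (ψ : BV L ⊕ Bool ↪ Fin n) : BV L ↪ Fin n := Function.Embedding.inl.trans ψ

theorem opn_other (ψ : BV L ⊕ Bool ↪ Fin n) (g g' : Fin L → Perm (Fin 5)) (x y : Fin n)
    (h : ∀ i, cr (emb ψ) i ≠ (x, y)) : ((opn g).map ψ).Adj x y → ((opn g').map ψ).Adj x y := by
  rw [SimpleGraph.map_adj, SimpleGraph.map_adj]
  rintro ⟨u, v, huv, rfl, rfl⟩
  refine ⟨u, v, ?_, rfl, rfl⟩
  rcases huv with h1 | h1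
  · refine Or.inl (EO_other g g' u v ?_ h1)
    rintro ⟨u', v', rfl, rfl, h2, h3, h4⟩
    refine h (u'.1, u'.2.2, v'.2.2, false) ?_
    obtain ⟨t, s, a⟩ := u'
    obtain ⟨t', s', a'⟩ := v'
    simp only at h2 h3 h4
    subst h2; subst h3; subst h4
    rfl
  · refine Or.inr (EO_other g g' v u ?_ h1)
    rintro ⟨u', v', rfl, rfl, h2, h3, h4⟩
    refine h (u'.1, u'.2.2, v'.2.2, true) ?_
    obtain ⟨t, s, a⟩ := u'
    obtain ⟨t', s', a'⟩ := v'
    simp only at h2 h3 h4
    subst h2; subst h3; subst h4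
    rfl

theorem opn_cr (ψ : BV L ⊕ Bool ↪ Fin n) (g : Fin L → Perm (Fin 5))
    (i : Fin L × Fin 5 × Fin 5 × Bool) :
    ((opn g).map ψ).Adj (cr (emb ψ) i).1 (cr (emb ψ) i).2 ↔ i.2.1 = g i.1 i.2.2.1 := by
  obtain ⟨t, a, a', o⟩ := i
  rw [← opn_cross g t a a']
  cases o with
  | false => exact SimpleGraph.map_adj_apply (f := ψ)
  | true =>
    rw [SimpleGraph.adj_comm]
    exact SimpleGraph.map_adj_apply (f := ψ)

theorem opn_fill (ψ : BV L ⊕ Bool ↪ Fin n) (g g' : Fin L → Perm (Fin 5)) :
    fill (cr (emb ψ)) (mat ((opn g').map ψ)) (fun i => xor false (crossBit g i)) =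
      mat ((opn g).map ψ) := by
  classical
  have hp : Function.Injective (cr (emb ψ)) := cr_inj (emb ψ)
  funext v
  by_cases hv : ∃ i, cr (emb ψ) i = v
  · obtain ⟨i, rfl⟩ := hv
    rw [fill_apply hp, Bool.false_xor]
    unfold mat crossBit
    exact decide_eq_decide.2 (opn_cr ψ g i).symm
  · push Not at hv
    rw [fill_other _ _ hv]
    obtain ⟨x, y⟩ := v
    unfold mat
    exact decide_eq_decide.2 ⟨opn_other ψ g' g x y hv, opn_other ψ g g' x y hv⟩

/-- If the product is trivial then the target is reachable. -/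
theorem opn_reach (hL : 1 ≤ L) (g : Fin L → Perm (Fin 5)) (h : (List.ofFn g).prod = 1) :
    (opn g).Reachable (.inr false) (.inr true) := by
  have hpL : pre g L = 1 := by rw [pre_last, h]
  have h0 : ∀ t : ℕ, ∀ ht : t < L, (opn g).Reachable (.inr false)
      (.inl (⟨t, ht⟩, false, (pre g t)⁻¹ 0)) ∧
      (opn g).Adj (.inl (⟨t, ht⟩, false, (pre g t)⁻¹ 0))
        (.inl (⟨t, ht⟩, true, (pre g (t + 1))⁻¹ 0)) := by
    intro t
    induction t with
    | zero =>
      intro ht
      constructor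
      · refine SimpleGraph.Adj.reachable (Or.inl ⟨rfl, rfl, rfl, ?_⟩)
        simp [pre_zero]
      · rw [opn_cross]
        have := pre_succ g ⟨0, ht⟩
        simp only at this
        rw [this, mul_inv_rev, Perm.mul_apply]
        simp
    | succ t ih =>
      intro ht
      obtain ⟨h1, h2⟩ := ih (by omega)
      constructor
      · refine h1.trans (h2.reachable.trans (SimpleGraph.Adj.reachable ?_))
        exact Or.inl (Or.inr ⟨rfl, rfl, rfl, rfl⟩)
      · rw [opn_cross]
        have := pre_succ g ⟨t + 1, ht⟩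
        simp only at this
        rw [this, mul_inv_rev, Perm.mul_apply]
        simp
  obtain ⟨h1, h2⟩ := h0 (L - 1) (by omega)
  refine h1.trans (h2.reachable.trans (SimpleGraph.Adj.reachable (Or.inl ⟨rfl, rfl, ?_, ?_⟩)))
  · simp only; omega
  · have : L - 1 + 1 = L := by omega
    simp only [this, hpL]
    simp

/-- If the product is the involution then the target is not reachable. -/
theorem opn_not_reach (ψ : BV L ⊕ Bool ↪ Fin n) (g : Fin L → Perm (Fin 5))
    (h : (List.ofFn g).prod = tau) :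
    ¬ ((opn g).map ψ).Reachable (ψ (.inr false)) (ψ (.inr true)) := by
  have hpL : pre g L = tau := by rw [pre_last, h]
  obtain ⟨Y, hY⟩ : ∃ Y : Set (BV L ⊕ Bool), Y = {u | match u with
    | .inl u' => lev g u' u'.2.2 = 0
    | .inr o => o = false} := ⟨_, rfl⟩
  have hYl : ∀ u, (Sum.inl u : BV L ⊕ Bool) ∈ Y ↔ lev g u u.2.2 = 0 := by
    intro u; rw [hY]; rfl
  have hYr : ∀ o, (Sum.inr o : BV L ⊕ Bool) ∈ Y ↔ o = false := by
    intro o; rw [hY]; rfl
  have hclosed : ∀ u v : BV L ⊕ Bool, EO g u v → (u ∈ Y ↔ v ∈ Y) := by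
    rintro (u | j) (v | j') huv
    · rw [hYl, hYl]
      obtain ⟨t, s, a⟩ := u
      obtain ⟨t', s', a'⟩ := v
      rcases huv with ⟨e1, e2, e3, e4⟩ | ⟨e1, e2, e3, e4⟩
      · simp only at e1 e2 e3 e4
        subst e1; subst e2; subst e3
        unfold lev
        simp only [Bool.false_eq_true, if_false, if_true, add_zero]
        rw [pre_succ, Perm.mul_apply, e4]
      · simp only at e1 e2 e3 e4
        subst e1; subst e2; subst e4
        unfold lev
        simp only [Bool.false_eq_true, if_false, if_true, add_zero]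
        rw [e3]
    · obtain ⟨e1, e2, e3, e4⟩ := huv
      rw [hYl, hYr, e1]
      unfold lev
      rw [if_pos e2, e3, hpL, e4]
      exact ⟨fun h => absurd h (by decide), fun h => absurd h (by decide)⟩
    · obtain ⟨e1, e2, e3, e4⟩ := huv
      rw [hYl, hYr, e1]
      unfold lev
      rw [e2, e3]
      simp only [Bool.false_eq_true, if_false, add_zero]
      rw [pre_zero, e4]
      simp
    · exact huv.elim
  intro hr
  rw [SimpleGraph.reachable_iff_reflTransGen] at hr
  have key : ∀ y, Relation.ReflTransGen ((opn g).map ψ).Adj (ψ (.inr false)) y →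
      ∃ u ∈ Y, ψ u = y := by
    intro y hy
    induction hy with
    | refl => exact ⟨.inr false, (hYr false).2 rfl, rfl⟩
    | tail _ hxy ih =>
      obtain ⟨u, hu, rfl⟩ := ih
      rw [SimpleGraph.map_adj] at hxy
      obtain ⟨u', v, huv, h1, rfl⟩ := hxy
      rw [ψ.injective h1] at huv
      refine ⟨v, ?_, rfl⟩
      rcases huv with h2 | h2
      · exact (hclosed _ _ h2).1 hu
      · exact (hclosed _ _ h2).2 hu
  obtain ⟨u, hu, h1⟩ := key _ hr
  rw [ψ.injective h1, hYr] at hu
  exact absurd hu (by decide)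

theorem reach_iff (hL : 1 ≤ L) (ψ : BV L ⊕ Bool ↪ Fin n) (g : Fin L → Perm (Fin 5))
    (h : (List.ofFn g).prod = 1 ∨ (List.ofFn g).prod = tau) :
    ((opn g).map ψ).Reachable (ψ (.inr false)) (ψ (.inr true)) ↔ (List.ofFn g).prod = 1 := by
  constructor
  · intro hH
    rcases h with h | h
    · exact h
    · exact absurd hH (opn_not_reach ψ g h)
  · intro h1
    exact (opn_reach hL g h1).map (SimpleGraph.Embedding.map ψ (opn g)).toHom

/-- **Reachability.** -/
theorem reach_stack (k : ℕ) : ∃ D : ℕ, 0 < D ∧ ∀ (n T : ℕ) (hn : 2 ≤ n)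
    (Q : SimpleGraph (Fin n) → Prop),
    ((Q = fun G => G.Reachable ⟨0, by omega⟩ ⟨n - 1, by omega⟩) ∨
      (Q = fun G => ¬ G.Reachable ⟨0, by omega⟩ ⟨n - 1, by omega⟩)) →
    ∀ (R : Type) [Fintype R] [Nonempty R] (U : R → Prog (Fin k) (Fin n × Fin n)),
      (∀ r G l, (U r).Acc (mat G) l → Q G) →
      (∀ G, Q G → Nat.card R ≤ 2 ^ (n / D) *
        Nat.card {r // ∃ l, (U r).Acc (mat G) l ∧ travel cellAt l ≤ T}) →
      ∃ r, n ^ 3 ≤ D * ((T + n ^ 2) * (Nat.log 2 (Fintype.card (U r).State) + 1)) := by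
  classical
  obtain ⟨c, D, hc, hD, hcore⟩ := mat_core k
  refine ⟨D, hD, ?_⟩
  intro n T hn Q hQ R _ _ U hU hl
  rcases Nat.lt_or_ge n D with hMD | hMD
  · obtain ⟨r⟩ := (inferInstance : Nonempty R)
    refine ⟨r, ?_⟩
    calc n ^ 3 = n * n ^ 2 := by ring
      _ ≤ D * n ^ 2 := Nat.mul_le_mul_right _ hMD.le
      _ ≤ D * ((T + n ^ 2) * (Nat.log 2 (Fintype.card (U r).State) + 1)) := by
          apply Nat.mul_le_mul_left
          calc n ^ 2 ≤ (T + n ^ 2) * 1 := by omega
            _ ≤ _ := Nat.mul_le_mul_left _ (by omega)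
  obtain ⟨N, e, hN2, hNn, he, hmain⟩ := hcore n hMD
  obtain ⟨ψ, hψ, hs, ht⟩ : ∃ ψ : BV (N * c) ⊕ Bool ↪ Fin n, emb ψ = e ∧
      ψ (.inr false) = ⟨0, by omega⟩ ∧ ψ (.inr true) = ⟨n - 1, by omega⟩ := by
    refine ⟨⟨Sum.elim e (fun o => if o = true then ⟨n - 1, by omega⟩ else ⟨0, by omega⟩), ?_⟩,
      ?_, rfl, rfl⟩
    · rintro (u | o) (v | o') h
      · exact congrArg _ (e.injective h)
      · exfalso
        have h1 := congrArg Fin.val h
        have h2 := he u
        cases o' with
        | false =>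
          change (e u).val = 0 at h1
          omega
        | true =>
          change (e u).val = n - 1 at h1
          omega
      · exfalso
        have h1 := congrArg Fin.val h
        have h2 := he v
        cases o with
        | false =>
          change 0 = (e v).val at h1
          omega
        | true =>
          change n - 1 = (e v).val at h1
          omega
      · have h1 := congrArg Fin.val h
        cases o <;> cases o'
        · rfl
        · change 0 = n - 1 at h1
          omega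
        · change n - 1 = 0 at h1
          omega
        · rfl
    · ext u; rfl
  subst hψ
  have hiff : ∀ g : Fin (N * c) → Perm (Fin 5),
      ((List.ofFn g).prod = 1 ∨ (List.ofFn g).prod = tau) →
      (((opn g).map ψ).Reachable ⟨0, by omega⟩ ⟨n - 1, by omega⟩ ↔ (List.ofFn g).prod = 1) := by
    intro g hg
    rw [← reach_iff (by omega) ψ g hg, hs, ht]
  obtain ⟨Q', hQ'⟩ : ∃ Q' : (Fin n × Fin n → Bool) → Prop,
      Q' = fun x => ∀ G : SimpleGraph (Fin n), mat G = x → Q G := ⟨_, rfl⟩
  have hmat : ∀ G H : SimpleGraph (Fin n), mat G = mat H → G = H := by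
    intro G H h
    ext x y
    have := congrFun h (x, y)
    unfold mat at this
    exact decide_eq_decide.1 this
  have hQQ : ∀ G, Q' (mat G) ↔ Q G := by
    intro G
    rw [hQ']
    constructor
    · intro h; exact h G rfl
    · intro h H hH
      rw [hmat H G hH]
      exact h
  refine hmain (fun g => mat ((opn g).map ψ)) false (fun g g' => opn_fill ψ g g') T Q' ?_ R U ?_ ?_
  · rcases hQ with rfl | rfl
    · refine Or.inl (fun g hg => ?_)
      rw [hQQ]
      exact hiff g hg
    · refine Or.inr (fun g hg => ?_)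
      rw [hQQ]
      exact not_congr (hiff g hg)
  · intro r g l h
    rw [hQQ]
    exact hU r _ l h
  · intro g h
    rw [hQQ] at h
    exact hl _ h

end Pool.Agent.W896.HB
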