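import Pool.Agent.W896.HB.GI
import Pool.Agent.W896.FD.HamG

/-!
# Braids closed to a Hamiltonian cycle
-/

set_option autoImplicit false
set_option maxHeartbeats 1000000

namespace Pool.Agent.W896.HB

open Equiv Pool.Agent.W896.HP Pool.Agent.W896.FD.Ham Pool.Agent.H545R2

/-- The vertices: those of a braid and `m` further vertices. -/
abbrev BH (L m : ℕ) : Type := BV L ⊕ Fin m

/-- The edges of the closed braid, in one direction: the end of the strand `a` is joined to the
beginning of the strand `a + 1`, for `a = 0` through the further vertices. -/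
def EH {L m : ℕ} (g : Fin L → Perm (Fin 5)) : BH L m → BH L m → Prop
  | .inl u, .inl v =>
      (u.2.1 = false ∧ v.2.1 = true ∧ u.1 = v.1 ∧ u.2.2 = g u.1 v.2.2) ∨
      (u.2.1 = true ∧ v.2.1 = false ∧ v.1.val = u.1.val + 1 ∧ u.2.2 = v.2.2) ∨
      (u.2.1 = true ∧ v.2.1 = false ∧ u.1.val + 1 = L ∧ v.1.val = 0 ∧ u.2.2 ≠ 0 ∧
        v.2.2 = u.2.2 + 1)
  | .inl u, .inr j => u.2.1 = true ∧ u.1.val + 1 = L ∧ u.2.2 = 0 ∧ j.val = 0
  | .inr j, .inl v => j.val + 1 = m ∧ v.2.1 = false ∧ v.1.val = 0 ∧ v.2.2 = 1
  | .inr j, .inr j' => j'.val = j.val + 1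

/-- The closed braid. -/
def ring {L m : ℕ} (g : Fin L → Perm (Fin 5)) : SimpleGraph (BH L m) where
  Adj u v := EH g u v ∨ EH g v u
  symm := ⟨fun _ _ h => h.symm⟩
  loopless := ⟨fun u h => by
    have h' : EH g u u := h.elim id id
    rcases u with u | j
    · rcases h' with h1 | h1 | h1
      · exact absurd (h1.1.symm.trans h1.2.1) (by decide)
      · exact absurd (h1.1.symm.trans h1.2.1) (by decide)
      · exact absurd (h1.1.symm.trans h1.2.1) (by decide)
    · have : j.val = j.val + 1 := h'
      omega⟩

variable {L m n : ℕ}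

theorem ring_cross (hL : 2 ≤ L) (g : Fin L → Perm (Fin 5)) (t : Fin L) (a a' : Fin 5) :
    (ring (m := m) g).Adj (.inl (t, false, a)) (.inl (t, true, a')) ↔ a = g t a' := by
  constructor
  · rintro ((h | h | h) | (h | h | h))
    · exact h.2.2.2
    · exact absurd h.1 (by simp)
    · exact absurd h.1 (by simp)
    · exact absurd h.1 (by simp)
    · have := h.2.2.1; simp only at this; omega
    · have h1 := h.2.2.1; have h2 := h.2.2.2.1; simp only at h1 h2; omega
  · intro h
    exact Or.inl (Or.inl ⟨rfl, rfl, rfl, h⟩)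

/-- The edges which do not belong to a crossing. -/
theorem EH_other (g g' : Fin L → Perm (Fin 5)) (u v : BH L m)
    (h : ¬ ∃ u' v', u = .inl u' ∧ v = .inl v' ∧ u'.2.1 = false ∧ v'.2.1 = true ∧ u'.1 = v'.1) :
    EH g u v → EH g' u v := by
  rcases u with u | j <;> rcases v with v | j'
  · rintro (h1 | h1 | h1)
    · exact absurd ⟨u, v, rfl, rfl, h1.1, h1.2.1, h1.2.2.1⟩ h
    · exact Or.inr (Or.inl h1)
    · exact Or.inr (Or.inr h1)
  · exact fun h => h
  · exact fun h => h
  · exact fun h => h

/-- The embedding of the braid. -/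
def em (φ : BH L m ≃ Fin n) : BV L ↪ Fin n := ⟨fun u => φ (.inl u), fun u v h => by
  exact Sum.inl_injective (φ.injective h)⟩

theorem map_equiv_adj {V W : Type} (φ : V ≃ W) (G : SimpleGraph V) (x y : W) :
    (G.map φ).Adj x y ↔ ∃ u v, G.Adj u v ∧ φ u = x ∧ φ v = y :=
  SimpleGraph.map_adj φ.toEmbedding G x y

theorem tau_key : ∀ a : Fin 5, a ≠ 0 → (tau a = 1 ↔ (1 : Perm (Fin 5)) (a + 1) = 1) := by
  decide

theorem ring_other (φ : BH L m ≃ Fin n) (g g' : Fin L → Perm (Fin 5)) (x y : Fin n)
    (h : ∀ i, cr (em φ) i ≠ (x, y)) : ((ring g).map φ).Adj x y → ((ring g').map φ).Adj x y := by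
  rw [map_equiv_adj, map_equiv_adj]
  rintro ⟨u, v, huv, rfl, rfl⟩
  refine ⟨u, v, ?_, rfl, rfl⟩
  rcases huv with h1 | h1
  · refine Or.inl (EH_other g g' u v ?_ h1)
    rintro ⟨u', v', rfl, rfl, h2, h3, h4⟩
    refine h (u'.1, u'.2.2, v'.2.2, false) ?_
    obtain ⟨t, s, a⟩ := u'
    obtain ⟨t', s', a'⟩ := v'
    simp only at h2 h3 h4
    subst h2; subst h3; subst h4
    rfl
  · refine Or.inr (EH_other g g' v u ?_ h1)
    rintro ⟨u', v', rfl, rfl, h2, h3, h4⟩
    refine h (u'.1, u'.2.2, v'.2.2, true) ?_
    obtain ⟨t, s, a⟩ := u'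
    obtain ⟨t', s', a'⟩ := v'
    simp only at h2 h3 h4
    subst h2; subst h3; subst h4
    rfl

theorem ring_cr (hL : 2 ≤ L) (φ : BH L m ≃ Fin n) (g : Fin L → Perm (Fin 5))
    (i : Fin L × Fin 5 × Fin 5 × Bool) :
    ((ring g).map φ).Adj (cr (em φ) i).1 (cr (em φ) i).2 ↔ i.2.1 = g i.1 i.2.2.1 := by
  obtain ⟨t, a, a', o⟩ := i
  rw [← ring_cross (m := m) hL g t a a']
  cases o with
  | false => exact SimpleGraph.map_adj_apply (f := φ.toEmbedding)
  | true =>
    rw [SimpleGraph.adj_comm]
    exact SimpleGraph.map_adj_apply (f := φ.toEmbedding)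

open Classical in
/-- The entries of the adjacency matrix of a graph. -/
noncomputable def mat (G : SimpleGraph (Fin n)) : Fin n × Fin n → Bool :=
  fun v => decide (G.Adj v.1 v.2)

/-- The position of an entry: the matrix is written row by row. -/
def cellAt (v : Fin n × Fin n) : ℕ := n * v.1.val + v.2.val

theorem mat_fill (hL : 2 ≤ L) (φ : BH L m ≃ Fin n) (g g' : Fin L → Perm (Fin 5)) :
    fill (cr (em φ)) (mat ((ring g').map φ)) (crossBit g) = mat ((ring g).map φ) := by
  classical
  have hp : Function.Injective (cr (em φ)) := cr_inj (em φ)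
  funext v
  by_cases hv : ∃ i, cr (em φ) i = v
  · obtain ⟨i, rfl⟩ := hv
    rw [fill_apply hp]
    unfold mat crossBit
    exact decide_eq_decide.2 (ring_cr hL φ g i).symm
  · push Not at hv
    rw [fill_other _ _ hv]
    obtain ⟨x, y⟩ := v
    unfold mat
    exact decide_eq_decide.2 ⟨ring_other φ g' g x y hv, ring_other φ g g' x y hv⟩

/-- The enumeration along the strands. -/
def enumB (g : Fin L → Perm (Fin 5)) (u : Fin (5 * (2 * L) + m)) : BH L m :=
  if h : u.val < 5 * (2 * L) then
    .inl (⟨u.val % (2 * L) / 2, by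
        have hL : 0 < 2 * L := by omega
        have := Nat.mod_lt u.val hL
        omega⟩, decide (u.val % (2 * L) % 2 = 1),
      (pre g (u.val % (2 * L) / 2 + u.val % (2 * L) % 2))⁻¹ (⟨u.val / (2 * L), by
        rw [Nat.div_lt_iff_lt_mul (by omega)]; exact h⟩ + 1))
  else .inr ⟨u.val - 5 * (2 * L), by have := u.isLt; omega⟩

theorem enumB_inj (g : Fin L → Perm (Fin 5)) : Function.Injective (enumB (m := m) g) := by
  intro s t h
  unfold enumB at h
  split_ifs at h with h1 h2 h2
  · have h3 := Sum.inl_injective h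
    rw [Prod.mk.injEq, Prod.mk.injEq] at h3
    obtain ⟨h4, h5, h6⟩ := h3
    have h4' : s.val % (2 * L) / 2 = t.val % (2 * L) / 2 := congrArg Fin.val h4
    have h5' : s.val % (2 * L) % 2 = t.val % (2 * L) % 2 := by
      rw [decide_eq_decide] at h5
      omega
    have h7 : s.val % (2 * L) = t.val % (2 * L) := by omega
    rw [h7] at h6
    have h8 := add_right_cancel (Equiv.injective _ h6)
    have h9 : s.val / (2 * L) = t.val / (2 * L) := congrArg Fin.val h8
    apply Fin.ext
    rw [← Nat.div_add_mod s.val (2 * L), ← Nat.div_add_mod t.val (2 * L), h7, h9]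
  · have h3 := congrArg Fin.val (Sum.inr_injective h)
    simp only at h3
    exact Fin.ext (by omega)

theorem enumB_bij (g : Fin L → Perm (Fin 5)) : Function.Bijective (enumB (m := m) g) := by
  rw [Fintype.bijective_iff_injective_and_card]
  refine ⟨enumB_inj g, ?_⟩
  rw [Fintype.card_fin, Fintype.card_sum, Fintype.card_prod, Fintype.card_prod, Fintype.card_fin,
    Fintype.card_bool, Fintype.card_fin, Fintype.card_fin]
  ring

theorem ring_ham (hL : 1 ≤ L) (hm : 1 ≤ m) (g : Fin L → Perm (Fin 5))
    (h : (List.ofFn g).prod = 1) : (ring (m := m) g).IsHamiltonian := by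
  have hLL : 0 < 2 * L := by omega
  have hpL : pre g L = 1 := by rw [pre_last, h]
  refine ham_of_fun (N := 5 * (2 * L) + m) (by omega) (enumB g) (enumB_bij g) ?_ ?_
  · intro s t hst
    have ht := t.isLt
    unfold enumB
    by_cases h1 : t.val < 5 * (2 * L)
    · have h2 : s.val < 5 * (2 * L) := by omega
      rw [dif_pos h1, dif_pos h2]
      obtain ⟨q, hq⟩ : ∃ q, q = s.val / (2 * L) := ⟨_, rfl⟩
      obtain ⟨v, hv⟩ : ∃ v, v = s.val % (2 * L) := ⟨_, rfl⟩
      have hvL : v < 2 * L := by rw [hv]; exact Nat.mod_lt _ hLL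
      have hsv : s.val = 2 * L * q + v := by rw [hq, hv]; exact (Nat.div_add_mod _ _).symm
      by_cases h3 : v + 1 < 2 * L
      · -- inside a strand
        have htq : t.val / (2 * L) = q := by
          rw [hst, hsv, add_assoc, Nat.mul_add_div hLL, Nat.div_eq_of_lt h3, add_zero]
        have htv : t.val % (2 * L) = v + 1 := by
          rw [hst, hsv, add_assoc, Nat.mul_add_mod, Nat.mod_eq_of_lt h3]
        have e1 : (⟨t.val / (2 * L), by
            rw [Nat.div_lt_iff_lt_mul (by omega)]; exact h1⟩ : Fin 5) = ⟨s.val / (2 * L), by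
            rw [Nat.div_lt_iff_lt_mul (by omega)]; exact h2⟩ := Fin.ext (htq.trans hq)
        rw [e1]
        rcases Nat.even_or_odd v with hev | hod
        · -- a crossing
          have hv2 : v % 2 = 0 := Nat.even_iff.1 hev
          refine Or.inl (Or.inl ⟨?_, ?_, ?_, ?_⟩)
          · simp only [← hv, hv2]; decide
          · simp only [htv, decide_eq_true_eq]; omega
          · apply Fin.ext; simp only [← hv, htv]; omega
          · have e2 : t.val % (2 * L) / 2 = v / 2 := by rw [htv]; omega
            have e3 : t.val % (2 * L) % 2 = 1 := by rw [htv]; omega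
            simp only [e2, e3, ← hv, hv2, add_zero]
            have h4 := pre_succ g ⟨v / 2, by omega⟩
            simp only at h4
            rw [h4, mul_inv_rev, Perm.mul_apply]
            simp
        · -- a link
          have hv2 : v % 2 = 1 := Nat.odd_iff.1 hod
          refine Or.inl (Or.inr (Or.inl ⟨?_, ?_, ?_, ?_⟩))
          · simp only [← hv, hv2]; decide
          · simp only [htv, decide_eq_false_iff_not]; omega
          · simp only [← hv, htv]; omega
          · have e2 : t.val % (2 * L) / 2 = v / 2 + 1 := by rw [htv]; omega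
            have e3 : t.val % (2 * L) % 2 = 0 := by rw [htv]; omega
            simp only [e2, e3, ← hv, hv2, add_zero]
      · -- the end of a strand
        have hv' : v = 2 * L - 1 := by omega
        have htm : t.val = 2 * L * (q + 1) := by rw [hst, hsv, mul_add, mul_one]; omega
        have htq : t.val / (2 * L) = q + 1 := by rw [htm, Nat.mul_div_cancel_left _ hLL]
        have htv : t.val % (2 * L) = 0 := by rw [htm, Nat.mul_mod_right]
        have hq4 : q < 4 := by
          have : q + 1 < 5 := by
            rw [← htq, Nat.div_lt_iff_lt_mul (by omega)]; exact h1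
          omega
        refine Or.inl (Or.inr (Or.inr ⟨?_, ?_, ?_, ?_, ?_, ?_⟩))
        · simp only [← hv, hv', decide_eq_true_eq]; omega
        · simp only [htv]; decide
        · simp only [← hv, hv']; omega
        · simp only [htv, Nat.zero_div]
        · have e2 : v / 2 + v % 2 = L := by omega
          simp only [← hv, ← hq, e2, hpL]
          intro h5
          have h6 := congrArg Fin.val h5
          simp only [inv_one, Perm.coe_one, id_eq] at h6
          rw [Fin.val_add] at h6
          have h7 : (1 : Fin 5).val = 1 := rfl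
          have h8 : (0 : Fin 5).val = 0 := rfl
          rw [h7, h8] at h6
          simp only at h6
          omega
        · have e2 : v / 2 + v % 2 = L := by omega
          simp only [← hv, ← hq, e2, hpL, htv, Nat.zero_div, Nat.zero_mod, add_zero, pre_zero,
            inv_one, Perm.coe_one, id_eq]
          apply Fin.ext
          rw [Fin.val_add, Fin.val_add, Fin.val_add]
          have h7 : (1 : Fin 5).val = 1 := rfl
          rw [h7]
          simp only [htq]
          omega
    · by_cases h2 : s.val < 5 * (2 * L)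
      · rw [dif_neg h1, dif_pos h2]
        have hs : s.val = 2 * L * 4 + (2 * L - 1) := by omega
        have hsq : s.val / (2 * L) = 4 := by
          rw [hs, Nat.mul_add_div hLL, Nat.div_eq_of_lt (by omega)]
        have hsv : s.val % (2 * L) = 2 * L - 1 := by
          rw [hs, Nat.mul_add_mod, Nat.mod_eq_of_lt (by omega)]
        refine Or.inl ⟨?_, ?_, ?_, ?_⟩
        · simp only [hsv, decide_eq_true_eq]; omega
        · simp only [hsv]; omega
        · have e2 : (2 * L - 1) / 2 + (2 * L - 1) % 2 = L := by omega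
          simp only [hsv, e2, hpL, inv_one, Perm.coe_one, id_eq]
          apply Fin.ext
          rw [Fin.val_add]
          simp only [hsq]
          rfl
        · simp only; omega
      · rw [dif_neg h1, dif_neg h2]
        refine Or.inl ?_
        change t.val - 5 * (2 * L) = s.val - 5 * (2 * L) + 1
        omega
  · intro s t hs ht
    unfold enumB
    rw [dif_neg (show ¬ s.val < 5 * (2 * L) by omega), dif_pos (show t.val < 5 * (2 * L) by omega)]
    refine Or.inl ⟨?_, ?_, ?_, ?_⟩
    · simp only; omega
    · simp only [ht, Nat.zero_mod]; decide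
    · simp only [ht, Nat.zero_mod, Nat.zero_div]
    · simp only [ht, Nat.zero_mod, Nat.zero_div, add_zero, pre_zero, inv_one, Perm.coe_one, id_eq]
      rfl

/-- If the product is the involution then the graph is not connected. -/
theorem ring_not_ham (hL : 1 ≤ L) (g : Fin L → Perm (Fin 5))
    (h : (List.ofFn g).prod = tau) : ¬ (ring (m := m) g).IsHamiltonian := by
  intro hH
  have hpL : pre g L = tau := by rw [pre_last, h]
  have h3 : 3 ≤ Fintype.card (BH L m) := by
    rw [Fintype.card_sum, Fintype.card_prod, Fintype.card_prod, Fintype.card_fin,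
      Fintype.card_bool, Fintype.card_fin, Fintype.card_fin]
    omega
  obtain ⟨σ, h1, -, h2⟩ := exists_perm_of_isHamiltonian h3 hH
  obtain ⟨Y, hY⟩ : ∃ Y : Set (BH L m), Y = {u | ∀ u', u = .inl u' → lev g u' u'.2.2 = 1} :=
    ⟨_, rfl⟩
  have hclosed : ∀ u v : BH L m, EH g u v → (u ∈ Y ↔ v ∈ Y) := by
    rintro (u | j) (v | j') huv
    · have hu : (Sum.inl u : BH L m) ∈ Y ↔ lev g u u.2.2 = 1 := by
        rw [hY]
        constructor
        · intro h; exact h u rfl
        · intro h u' hu'
          rw [← Sum.inl_injective hu']; exact h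
      have hv : (Sum.inl v : BH L m) ∈ Y ↔ lev g v v.2.2 = 1 := by
        rw [hY]
        constructor
        · intro h; exact h v rfl
        · intro h u' hu'
          rw [← Sum.inl_injective hu']; exact h
      rw [hu, hv]
      obtain ⟨t, s, a⟩ := u
      obtain ⟨t', s', a'⟩ := v
      rcases huv with ⟨e1, e2, e3, e4⟩ | ⟨e1, e2, e3, e4⟩ | ⟨e1, e2, e3, e4, e5, e6⟩
      · simp only at e1 e2 e3 e4
        subst e1; subst e2; subst e3
        unfold lev
        simp only [Bool.false_eq_true, if_false, if_true, add_zero]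
        rw [pre_succ, Perm.mul_apply, e4]
      · simp only at e1 e2 e3 e4
        subst e1; subst e2; subst e4
        unfold lev
        simp only [Bool.false_eq_true, if_false, if_true, add_zero]
        rw [e3]
      · simp only at e1 e2 e3 e4 e5 e6
        subst e1; subst e2
        unfold lev
        simp only [Bool.false_eq_true, if_false, if_true, add_zero]
        rw [e3, e4, hpL, pre_zero, e6]
        exact tau_key a e5
    · obtain ⟨e1, e2, e3, e4⟩ := huv
      have hv : (Sum.inr j' : BH L m) ∈ Y := by
        rw [hY]; intro u' hu'; exact absurd hu' (by simp)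
      have hu : (Sum.inl u : BH L m) ∈ Y := by
        rw [hY]
        intro u' hu'
        rw [← Sum.inl_injective hu']
        unfold lev
        rw [if_pos e1, e2, hpL, e3]
        decide
      exact ⟨fun _ => hv, fun _ => hu⟩
    · obtain ⟨e1, e2, e3, e4⟩ := huv
      have hv : (Sum.inr j : BH L m) ∈ Y := by
        rw [hY]; intro u' hu'; exact absurd hu' (by simp)
      have hu : (Sum.inl v : BH L m) ∈ Y := by
        rw [hY]
        intro u' hu'
        rw [← Sum.inl_injective hu']
        unfold lev
        rw [e2, e3]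
        simp only [Bool.false_eq_true, if_false, add_zero]
        rw [pre_zero, e4]
        rfl
      exact ⟨fun _ => hu, fun _ => hv⟩
    · have hv : ∀ j : Fin m, (Sum.inr j : BH L m) ∈ Y := by
        intro j
        rw [hY]; intro u' hu'; exact absurd hu' (by simp)
      exact ⟨fun _ => hv _, fun _ => hv _⟩
  have huniv := h2 Y ⟨.inl (⟨0, by omega⟩, false, 1), by
    rw [hY]
    intro u' hu'
    rw [← Sum.inl_injective hu']
    unfold lev
    simp only [Bool.false_eq_true, if_false, add_zero]
    rw [pre_zero]
    rfl⟩ (by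
    intro v hv
    rcases h1 v with h4 | h4
    · exact (hclosed _ _ h4).1 hv
    · exact (hclosed _ _ h4).2 hv)
  have h5 : (Sum.inl (⟨0, by omega⟩, false, 0) : BH L m) ∈ Y := by rw [huniv]; trivial
  rw [hY] at h5
  have h6 := h5 _ rfl
  unfold lev at h6
  simp only [Bool.false_eq_true, if_false, add_zero] at h6
  rw [pre_zero] at h6
  exact absurd h6 (by decide)

theorem ring_iff (hL : 1 ≤ L) (hm : 1 ≤ m) (φ : BH L m ≃ Fin n) (g : Fin L → Perm (Fin 5))
    (h : (List.ofFn g).prod = 1 ∨ (List.ofFn g).prod = tau) :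
    ((ring g).map φ).IsHamiltonian ↔ (List.ofFn g).prod = 1 := by
  constructor
  · intro hH
    rcases h with h | h
    · exact h
    · exact absurd (ham_map (SimpleGraph.Iso.map φ _).symm hH) (ring_not_ham hL g h)
  · intro h1
    exact ham_map (SimpleGraph.Iso.map φ _) (ring_ham hL hm g h1)

end Pool.Agent.W896.HB
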