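import Mathlib

/-!
# Words over the symmetric group of degree five (Barrington)
-/

set_option autoImplicit false

namespace Pool.Agent.W896.HB

open Equiv

/-- A five-cycle. -/
def s5 : Perm (Fin 5) := ⟨![1, 2, 3, 4, 0], ![4, 0, 1, 2, 3], by decide, by decide⟩

/-- An auxiliary permutation. -/
def r1 : Perm (Fin 5) := ⟨![0, 2, 1, 4, 3], ![0, 2, 1, 4, 3], by decide, by decide⟩

/-- An auxiliary permutation. -/
def d1 : Perm (Fin 5) := ⟨![0, 3, 1, 2, 4], ![0, 2, 3, 1, 4], by decide, by decide⟩

/-- An auxiliary permutation. -/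
def r2 : Perm (Fin 5) := ⟨![0, 2, 1, 3, 4], ![0, 2, 1, 3, 4], by decide, by decide⟩

/-- An auxiliary permutation. -/
def d2 : Perm (Fin 5) := ⟨![0, 4, 3, 1, 2], ![0, 3, 4, 2, 1], by decide, by decide⟩

/-- An involution. -/
def tau : Perm (Fin 5) := ⟨![1, 0, 3, 2, 4], ![1, 0, 3, 2, 4], by decide, by decide⟩

theorem comm1 : (r1 * s5 * r1⁻¹) * d1 * (r1 * s5 * r1⁻¹)⁻¹ * d1⁻¹ = s5 := by decide

theorem comm2 : (r2 * s5 * r2⁻¹) * d2 * (r2 * s5 * r2⁻¹)⁻¹ * d2⁻¹ = tau := by decide

theorem tau_sq : tau * tau = 1 := by decide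

/-- The value of a letter. -/
def lval {ι : Type} (x : ι → Bool) (p : ι × Perm (Fin 5)) : Perm (Fin 5) :=
  if x p.1 = true then p.2 else 1

theorem word_inv {ι : Type} (w : List (ι × Perm (Fin 5))) (x : ι → Bool) :
    ((w.map (fun p => (p.1, p.2⁻¹))).reverse.map (lval x)).prod = ((w.map (lval x)).prod)⁻¹ := by
  rw [List.prod_inv_reverse, List.map_reverse, List.map_map, List.map_map]
  congr 2
  apply List.map_congr_left
  intro p _
  unfold lval
  simp only [Function.comp]
  split_ifs <;> simp

theorem word_conj {ι : Type} (r : Perm (Fin 5)) (w : List (ι × Perm (Fin 5))) (x : ι → Bool) :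
    ((w.map (fun p => (p.1, r * p.2 * r⁻¹))).map (lval x)).prod =
      r * (w.map (lval x)).prod * r⁻¹ := by
  induction w with
  | nil => simp
  | cons p w ih =>
    rw [List.map_cons, List.map_cons, List.prod_cons, ih, List.map_cons, List.prod_cons]
    unfold lval
    simp only
    split_ifs <;> group

/-- One step: the commutator with a letter. -/
theorem word_step {P Q : (ℕ → Bool) → Prop} [DecidablePred P] [DecidablePred Q] {m : ℕ}
    {r d t : Perm (Fin 5)}
    (h : (r * s5 * r⁻¹) * d * (r * s5 * r⁻¹)⁻¹ * d⁻¹ = t) (hPQ : ∀ x, Q x ↔ P x ∧ x m = true)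
    (w : List (ℕ × Perm (Fin 5))) (hw : ∀ p ∈ w, p.1 < m)
    (hv : ∀ x, (w.map (lval x)).prod = if P x then s5 else 1) :
    ∃ w' : List (ℕ × Perm (Fin 5)), (∀ p ∈ w', p.1 < m + 1) ∧
      ∀ x, (w'.map (lval x)).prod = if Q x then t else 1 := by
  refine ⟨w.map (fun p => (p.1, r * p.2 * r⁻¹)) ++ [(m, d)] ++
    ((w.map (fun p => (p.1, r * p.2 * r⁻¹))).map (fun p => (p.1, p.2⁻¹))).reverse ++ [(m, d⁻¹)],
    ?_, ?_⟩
  · intro p hp
    simp only [List.mem_append, List.mem_map, List.mem_reverse, List.mem_singleton] at hp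
    rcases hp with ((⟨a, ha, rfl⟩ | rfl) | ⟨_, ⟨a, ha, rfl⟩, rfl⟩) | rfl
    · exact (hw a ha).trans (Nat.lt_succ_self m)
    · exact Nat.lt_succ_self m
    · exact (hw a ha).trans (Nat.lt_succ_self m)
    · exact Nat.lt_succ_self m
  · intro x
    rw [List.map_append, List.map_append, List.map_append, List.prod_append, List.prod_append,
      List.prod_append, word_inv, word_conj, hv, List.map_singleton, List.map_singleton,
      List.prod_singleton, List.prod_singleton]
    unfold lval
    simp only
    by_cases h1 : P x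
    · by_cases h2 : x m = true
      · rw [if_pos h1, if_pos h2, if_pos h2, if_pos ((hPQ x).2 ⟨h1, h2⟩), h]
      · rw [if_neg h2, if_neg h2, if_neg (fun h3 => h2 ((hPQ x).1 h3).2)]
        group
    · rw [if_neg h1, if_neg (fun h3 => h1 ((hPQ x).1 h3).1)]
      split_ifs <;> group

theorem word5 (K : ℕ) : ∃ w : List (ℕ × Perm (Fin 5)), (∀ p ∈ w, p.1 < K + 1) ∧
    ∀ x, (w.map (lval x)).prod = if (∀ i < K + 1, x i = true) then s5 else 1 := by
  induction K with
  | zero =>
    refine ⟨[(0, s5)], by simp, fun x => ?_⟩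
    rw [List.map_singleton, List.prod_singleton]
    unfold lval
    simp only
    by_cases h : x 0 = true
    · rw [if_pos h, if_pos (fun i hi => by
        have : i = 0 := by omega
        rw [this]; exact h)]
    · rw [if_neg h, if_neg (fun h1 => h (h1 0 (by omega)))]
  | succ K ih =>
    obtain ⟨w, hw, hv⟩ := ih
    refine word_step (P := fun x => ∀ i < K + 1, x i = true)
      (Q := fun x => ∀ i < K + 1 + 1, x i = true) comm1 ?_ w hw hv
    intro x
    constructor
    · intro h
      exact ⟨fun i hi => h i (by omega), h _ (by omega)⟩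
    · rintro ⟨h1, h2⟩ i hi
      rcases Nat.lt_or_ge i (K + 1) with h3 | h3
      · exact h1 i h3
      · have : i = K + 1 := by omega
        rw [this]; exact h2

theorem wordTau (K : ℕ) : ∃ w : List (ℕ × Perm (Fin 5)), (∀ p ∈ w, p.1 < K + 1) ∧
    ∀ x, (w.map (lval x)).prod = if (∀ i < K + 1, x i = true) then tau else 1 := by
  cases K with
  | zero =>
    refine ⟨[(0, tau)], by simp, fun x => ?_⟩
    rw [List.map_singleton, List.prod_singleton]
    unfold lval
    simp only
    by_cases h : x 0 = true
    · rw [if_pos h, if_pos (fun i hi => by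
        have : i = 0 := by omega
        rw [this]; exact h)]
    · rw [if_neg h, if_neg (fun h1 => h (h1 0 (by omega)))]
  | succ K =>
    obtain ⟨w, hw, hv⟩ := word5 K
    refine word_step (P := fun x => ∀ i < K + 1, x i = true)
      (Q := fun x => ∀ i < K + 1 + 1, x i = true) comm2 ?_ w hw hv
    intro x
    constructor
    · intro h
      exact ⟨fun i hi => h i (by omega), h _ (by omega)⟩
    · rintro ⟨h1, h2⟩ i hi
      rcases Nat.lt_or_ge i (K + 1) with h3 | h3
      · exact h1 i h3
      · have : i = K + 1 := by omega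
        rw [this]; exact h2

/-- The word for `K` files. -/
theorem wordFin (K : ℕ) (hK : 0 < K) : ∃ w : List (Fin K × Perm (Fin 5)),
    ∀ x : Fin K → Bool, (w.map (lval x)).prod = if (∀ i, x i = true) then tau else 1 := by
  obtain ⟨m, rfl⟩ : ∃ m, K = m + 1 := ⟨K - 1, by omega⟩
  obtain ⟨w, hw, hv⟩ := wordTau m
  refine ⟨w.map (fun p => (Fin.ofNat (m + 1) p.1, p.2)), fun x => ?_⟩
  have h1 := hv (fun i => x (Fin.ofNat (m + 1) i))
  rw [List.map_map]
  have h2 : w.map (lval x ∘ fun p => (Fin.ofNat (m + 1) p.1, p.2)) =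
      w.map (lval (fun i => x (Fin.ofNat (m + 1) i))) := rfl
  rw [h2, h1]
  congr 1
  apply propext
  constructor
  · intro h i
    have := h i.val i.isLt
    have e : Fin.ofNat (m + 1) i.val = i := by
      apply Fin.ext
      simp [Fin.ofNat, Nat.mod_eq_of_lt i.isLt]
    rwa [e] at this
  · intro h i _
    exact h _

/-- The letters for `N` columns. -/
def letters {K : ℕ} (w : List (Fin K × Perm (Fin 5))) (N : ℕ) :
    List ((Fin K × Fin N) × Perm (Fin 5)) :=
  (List.finRange N).flatMap (fun j => w.map (fun p => ((p.1, j), p.2)))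

theorem letters_length {K : ℕ} (w : List (Fin K × Perm (Fin 5))) (N : ℕ) :
    (letters w N).length = N * w.length := by
  unfold letters
  rw [List.length_flatMap]
  simp

theorem tau_pow (c : ℕ) : tau ^ c = if Odd c then tau else 1 := by
  rcases Nat.even_or_odd' c with ⟨m, rfl | rfl⟩
  · rw [if_neg (by simp), pow_mul, pow_two, tau_sq, one_pow]
  · rw [if_pos (by simp), pow_succ, pow_mul, pow_two, tau_sq, one_pow, one_mul]

theorem letters_prod {K N : ℕ} (w : List (Fin K × Perm (Fin 5)))
    (hv : ∀ x : Fin K → Bool, (w.map (lval x)).prod = if (∀ i, x i = true) then tau else 1)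
    (b : Fin K × Fin N → Bool) : ((letters w N).map (lval b)).prod =
      if Odd (Finset.univ.filter (fun j : Fin N => ∀ i, b (i, j) = true)).card then tau else 1 := by
  rw [← tau_pow]
  have key : ∀ L : List (Fin N), ((L.flatMap (fun j => w.map (fun p => ((p.1, j), p.2)))).map
      (lval b)).prod = tau ^ (L.countP (fun j => decide (∀ i, b (i, j) = true))) := by
    intro L
    induction L with
    | nil => simp
    | cons j L ih =>
      rw [List.flatMap_cons, List.map_append, List.prod_append, ih, List.map_map]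
      have h1 : w.map (lval b ∘ fun p => ((p.1, j), p.2)) = w.map (lval (fun i => b (i, j))) := rfl
      rw [h1, hv, List.countP_cons]
      by_cases h : ∀ i, b (i, j) = true
      · rw [if_pos h]
        simp only [h, implies_true, decide_true, if_true]
        rw [← pow_succ']
      · rw [if_neg h]
        simp only [h, decide_false, Bool.false_eq_true, if_false, add_zero, one_mul]
  unfold letters
  rw [key]
  congr 1
  rw [List.countP_eq_length_filter]
  have h2 : (Finset.univ.filter (fun j : Fin N => ∀ i, b (i, j) = true)).card =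
      ((List.finRange N).filter (fun j => decide (∀ i, b (i, j) = true))).length := by
    have h3 : (Finset.univ.filter (fun j : Fin N => ∀ i, b (i, j) = true)) =
        ((List.finRange N).filter (fun j => decide (∀ i, b (i, j) = true))).toFinset := by
      ext j
      simp
    rw [h3, List.toFinset_card_of_nodup ((List.nodup_finRange N).filter _)]
  rw [h2]

end Pool.Agent.W896.HB
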